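import Mathlib

/-!
A kernel which is positive semidefinite on all samples of `M` points is positive semidefinite up to an
error of relative size `1 / (M - 1)`.
-/

set_option autoImplicit false
set_option linter.unusedSectionVars false

namespace Run7.h881.SA

open Finset

/-- positive semidefinite on all samples of `M` points -/
def PsdM {V : Type} (M : ℕ) (G : V → V → ℝ) : Prop :=
  ∀ (σ : Fin M → V) (a : Fin M → ℝ), 0 ≤ ∑ i, ∑ j, a i * a j * G (σ i) (σ j)

section
variable {V : Type} [Fintype V] [DecidableEq V]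

theorem sum_prod (n : ℕ) (g : Fin n → V → ℝ) :
    ∑ a : Fin n → V, ∏ k, g k (a k) = ∏ k, ∑ s, g k s := by
  rw [Finset.prod_univ_sum, Fintype.piFinset_univ]

theorem prod_ite_one (n : ℕ) (i : Fin n) (x y : ℝ) :
    ∏ k : Fin n, (if k = i then x else y) = x * y ^ (n - 1) := by
  rw [← mul_prod_erase univ _ (mem_univ i), if_pos rfl]
  congr 1
  rw [prod_congr rfl (g := fun _ => y) fun k hk => by rw [if_neg (ne_of_mem_erase hk)]]
  rw [prod_const, card_erase_of_mem (mem_univ i), card_univ, Fintype.card_fin]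

theorem prod_ite_two (n : ℕ) (i j : Fin n) (hij : i ≠ j) (x y z : ℝ) :
    ∏ k : Fin n, (if k = i then x else if k = j then y else z) = x * (y * z ^ (n - 2)) := by
  rw [← mul_prod_erase univ _ (mem_univ i), if_pos rfl]
  congr 1
  have hj : j ∈ univ.erase i := mem_erase.2 ⟨hij.symm, mem_univ j⟩
  rw [← mul_prod_erase _ _ hj, if_neg hij.symm, if_pos rfl]
  congr 1
  rw [prod_congr rfl (g := fun _ => z) fun k hk => by
    rw [if_neg (ne_of_mem_erase (mem_of_mem_erase hk)), if_neg (ne_of_mem_erase hk)]]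
  rw [prod_const, card_erase_of_mem hj, card_erase_of_mem (mem_univ i), card_univ,
    Fintype.card_fin, Nat.sub_sub]

/-- marginal of one point -/
theorem marg_one (n : ℕ) (p : V → ℝ) (i : Fin n) (h : V → ℝ) :
    ∑ σ : Fin n → V, (∏ k, p (σ k)) * h (σ i) = (∑ u, p u * h u) * (∑ u, p u) ^ (n - 1) := by
  have h1 : ∀ σ : Fin n → V, (∏ k, p (σ k)) * h (σ i) =
      ∏ k, (if k = i then p (σ k) * h (σ k) else p (σ k)) := by
    intro σ
    rw [← mul_prod_erase univ _ (mem_univ i), ← mul_prod_erase univ _ (mem_univ i), if_pos rfl]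
    rw [prod_congr rfl (s₁ := univ.erase i) (f := fun k => if k = i then p (σ k) * h (σ k) else
      p (σ k)) (g := fun k => p (σ k)) fun k hk => by rw [if_neg (ne_of_mem_erase hk)]]
    ring
  rw [sum_congr rfl fun σ _ => h1 σ]
  have h2 := sum_prod n (fun k u => if k = i then p u * h u else p u)
  rw [h2]
  have h3 : ∀ k : Fin n, ∑ u, (if k = i then p u * h u else p u) =
      if k = i then ∑ u, p u * h u else ∑ u, p u := by
    intro k
    split_ifs <;> rfl
  rw [prod_congr rfl fun k _ => h3 k, prod_ite_one]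

/-- marginal of two points -/
theorem marg_two (n : ℕ) (p : V → ℝ) (i j : Fin n) (hij : i ≠ j) (h : V → V → ℝ) :
    ∑ σ : Fin n → V, (∏ k, p (σ k)) * h (σ i) (σ j) =
      (∑ u, ∑ v, p u * p v * h u v) * (∑ u, p u) ^ (n - 2) := by
  have h0 : ∀ σ : Fin n → V, (∏ k, p (σ k)) * h (σ i) (σ j) =
      ∑ x, h x (σ j) * ((∏ k, p (σ k)) * (if σ i = x then 1 else 0)) := by
    intro σ
    rw [sum_eq_single (σ i)]
    · rw [if_pos rfl]; ring
    · intro b _ hb
      rw [if_neg (fun e => hb e.symm)]; ring
    · intro hb; exact absurd (mem_univ _) hb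
  have h1 : ∀ (x y : V), ∑ σ : Fin n → V, (∏ k, p (σ k)) * (if σ i = x then 1 else 0) *
      (if σ j = y then 1 else 0) = p x * (p y * (∑ u, p u) ^ (n - 2)) := by
    intro x y
    have h2 : ∀ σ : Fin n → V, (∏ k, p (σ k)) * (if σ i = x then 1 else 0) *
        (if σ j = y then 1 else 0) =
        ∏ k, (if k = i then p (σ k) * (if σ k = x then 1 else 0) else
          if k = j then p (σ k) * (if σ k = y then 1 else 0) else p (σ k)) := by
      intro σ
      have hj : j ∈ univ.erase i := mem_erase.2 ⟨hij.symm, mem_univ j⟩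
      rw [← mul_prod_erase univ _ (mem_univ i), ← mul_prod_erase (univ.erase i) _ hj,
        ← mul_prod_erase univ (fun k => if k = i then p (σ k) * (if σ k = x then (1 : ℝ) else 0)
          else if k = j then p (σ k) * (if σ k = y then 1 else 0) else p (σ k)) (mem_univ i),
        ← mul_prod_erase (univ.erase i) _ hj, if_pos rfl, if_neg hij.symm, if_pos rfl]
      rw [prod_congr rfl (s₁ := (univ.erase i).erase j)
        (f := fun k => if k = i then p (σ k) * (if σ k = x then (1 : ℝ) else 0)
          else if k = j then p (σ k) * (if σ k = y then 1 else 0) else p (σ k))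
        (g := fun k => p (σ k)) fun k hk => by
          rw [if_neg (ne_of_mem_erase (mem_of_mem_erase hk)), if_neg (ne_of_mem_erase hk)]]
      ring
    rw [sum_congr rfl fun σ _ => h2 σ]
    have h3 := sum_prod n (fun k u => if k = i then p u * (if u = x then (1 : ℝ) else 0) else
          if k = j then p u * (if u = y then 1 else 0) else p u)
    rw [h3]
    have h4 : ∀ k : Fin n, ∑ u, (if k = i then p u * (if u = x then (1 : ℝ) else 0) else
          if k = j then p u * (if u = y then 1 else 0) else p u) =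
        if k = i then p x else if k = j then p y else ∑ u, p u := by
      intro k
      split_ifs
      · simp
      · simp
      · rfl
    rw [prod_congr rfl fun k _ => h4 k, prod_ite_two n i j hij]
  have h5 : ∀ σ : Fin n → V, (∏ k, p (σ k)) * h (σ i) (σ j) =
      ∑ x, ∑ y, h x y * ((∏ k, p (σ k)) * (if σ i = x then 1 else 0) *
        (if σ j = y then 1 else 0)) := by
    intro σ
    rw [h0 σ]
    refine sum_congr rfl fun x _ => ?_
    rw [sum_eq_single (σ j)]
    · rw [if_pos (rfl : σ j = σ j)]; ring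
    · intro b _ hb
      have hb' : ¬ σ j = b := fun e => hb e.symm
      rw [if_neg hb']; ring
    · intro hb; exact absurd (mem_univ _) hb
  rw [sum_congr rfl fun σ _ => h5 σ, sum_comm, sum_mul]
  refine sum_congr rfl fun x _ => ?_
  rw [sum_comm, sum_mul]
  refine sum_congr rfl fun y _ => ?_
  rw [← mul_sum, h1]
  ring

/-- **sampled positive semidefiniteness** -/
theorem samp (G : V → V → ℝ) (M : ℕ) (hM : 2 ≤ M) (hG : PsdM M G) (F : V → ℝ) :
    0 ≤ ((M : ℝ) - 1) * (∑ u, ∑ v, F u * F v * G u v) + (∑ u, |F u|) * ∑ u, |F u| * G u u := by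
  set P : ℝ := ∑ u, |F u| with hP
  have hP0 : 0 ≤ P := sum_nonneg fun u _ => abs_nonneg _
  rcases hP0.eq_or_lt with h0 | h0
  · have hF : ∀ u, F u = 0 := by
      intro u
      have := (sum_eq_zero_iff_of_nonneg (fun u _ => abs_nonneg (F u))).1 h0.symm u (mem_univ u)
      exact abs_eq_zero.1 this
    simp [hF]
  -- the expectation
  have hsgn : ∀ u, |F u| * SignType.sign (F u) = F u := fun u => by
    rw [mul_comm]; exact sign_mul_abs (F u)
  have hsgn2 : ∀ u, |F u| * ((SignType.sign (F u) : ℝ) * (SignType.sign (F u) : ℝ)) = |F u| := by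
    intro u
    rcases lt_trichotomy (F u) 0 with h | h | h
    · simp [sign_neg h]
    · simp [h]
    · simp [sign_pos h]
  have h1 : 0 ≤ ∑ σ : Fin M → V, (∏ k, |F (σ k)|) * ∑ i, ∑ j,
      (SignType.sign (F (σ i)) : ℝ) * (SignType.sign (F (σ j)) : ℝ) * G (σ i) (σ j) :=
    sum_nonneg fun σ _ => mul_nonneg (prod_nonneg fun k _ => abs_nonneg _)
      (hG σ fun i => (SignType.sign (F (σ i)) : ℝ))
  have h2 : ∑ σ : Fin M → V, (∏ k, |F (σ k)|) * ∑ i, ∑ j,
      (SignType.sign (F (σ i)) : ℝ) * (SignType.sign (F (σ j)) : ℝ) * G (σ i) (σ j) =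
      ∑ i : Fin M, ∑ j : Fin M, (if i = j then (∑ u, |F u| * G u u) * P ^ (M - 1) else
        (∑ u, ∑ v, F u * F v * G u v) * P ^ (M - 2)) := by
    simp only [mul_sum]
    rw [sum_comm]
    refine sum_congr rfl fun i _ => ?_
    rw [sum_comm]
    refine sum_congr rfl fun j _ => ?_
    split_ifs with hij
    · subst hij
      rw [marg_one M (fun u => |F u|) i
        (fun u => (SignType.sign (F u) : ℝ) * (SignType.sign (F u) : ℝ) * G u u)]
      congr 1
      refine sum_congr rfl fun u _ => ?_
      rw [← mul_assoc, hsgn2]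
    · rw [marg_two M (fun u => |F u|) i j hij
        (fun u v => (SignType.sign (F u) : ℝ) * (SignType.sign (F v) : ℝ) * G u v)]
      congr 1
      refine sum_congr rfl fun u _ => sum_congr rfl fun v _ => ?_
      calc |F u| * |F v| * ((SignType.sign (F u) : ℝ) * (SignType.sign (F v) : ℝ) * G u v)
          = (|F u| * (SignType.sign (F u) : ℝ)) * (|F v| * (SignType.sign (F v) : ℝ)) * G u v := by
            ring
        _ = F u * F v * G u v := by rw [hsgn, hsgn]
  rw [h2] at h1
  have h3 : ∑ i : Fin M, ∑ j : Fin M, (if i = j then (∑ u, |F u| * G u u) * P ^ (M - 1) else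
        (∑ u, ∑ v, F u * F v * G u v) * P ^ (M - 2)) =
      M * P ^ (M - 2) * (((M : ℝ) - 1) * (∑ u, ∑ v, F u * F v * G u v)
        + P * ∑ u, |F u| * G u u) := by
    have h4 : ∀ i : Fin M, ∑ j : Fin M, (if i = j then (∑ u, |F u| * G u u) * P ^ (M - 1) else
        (∑ u, ∑ v, F u * F v * G u v) * P ^ (M - 2)) =
        (∑ u, |F u| * G u u) * P ^ (M - 1) +
          ((M : ℝ) - 1) * ((∑ u, ∑ v, F u * F v * G u v) * P ^ (M - 2)) := by
      intro i
      rw [← add_sum_erase univ _ (mem_univ i), if_pos rfl]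
      congr 1
      rw [sum_congr rfl (g := fun _ => (∑ u, ∑ v, F u * F v * G u v) * P ^ (M - 2))
        fun j hj => by rw [if_neg (ne_of_mem_erase hj).symm]]
      rw [sum_const, card_erase_of_mem (mem_univ i), card_univ, Fintype.card_fin, nsmul_eq_mul,
        Nat.cast_sub (by omega), Nat.cast_one]
    rw [sum_congr rfl fun i _ => h4 i, sum_const, card_univ, Fintype.card_fin, nsmul_eq_mul]
    have h5 : P ^ (M - 1) = P ^ (M - 2) * P := by
      rw [← pow_succ]; congr 1; omega
    rw [h5]
    ring
  rw [h3] at h1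
  have h6 : 0 < (M : ℝ) * P ^ (M - 2) := by
    have : (0 : ℝ) < M := by exact_mod_cast (by omega : 0 < M)
    positivity
  exact nonneg_of_mul_nonneg_right h1 h6

end

end Run7.h881.SA
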