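import Mathlib

/-!
Sequences which are logarithmically convex up to a small error.
-/

set_option autoImplicit false

namespace Run7.h881.SA

theorem quad_cs (X Y Z : ℝ) (hY : 0 ≤ Y)
    (h : ∀ α β : ℝ, 0 ≤ α → 0 ≤ β → 0 ≤ α ^ 2 * X - 2 * α * β * Y + β ^ 2 * Z) :
    0 ≤ X ∧ Y ^ 2 ≤ X * Z := by
  have hX : 0 ≤ X := by
    have := h 1 0 zero_le_one le_rfl
    simpa using this
  refine ⟨hX, ?_⟩
  rcases hX.eq_or_lt with h0 | h0
  · rcases hY.eq_or_lt with h1 | h1
    · rw [← h0, ← h1]; simp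
    · exfalso
      have hZ : 0 ≤ Z := by
        have := h 0 1 le_rfl zero_le_one
        simpa using this
      have := h (Z / Y + 1) 1 (by positivity) zero_le_one
      rw [← h0] at this
      have e : (Z / Y + 1) ^ 2 * 0 - 2 * (Z / Y + 1) * 1 * Y + 1 ^ 2 * Z = -Z - 2 * Y := by
        field_simp
        ring
      rw [e] at this
      linarith
  · have := h Y X hY hX
    have e : Y ^ 2 * X - 2 * Y * X * Y + X ^ 2 * Z = X * (X * Z - Y ^ 2) := by ring
    rw [e] at this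
    have := nonneg_of_mul_nonneg_right this h0
    linarith

theorem seq_lower (g : ℕ → ℝ) (a b P : ℝ) (T : ℕ) (ha : 0 < a) (hb0 : 0 ≤ b) (hb1 : b < 1)
    (hP : 0 < P) (h0 : g 0 = a) (h1 : (1 - b) * a ≤ g 1)
    (hc : ∀ (i j : ℕ) (α β : ℝ), 0 ≤ α → 0 ≤ β →
      0 ≤ α ^ 2 * (g (i + i) + 2 * (a / P)) - 2 * α * β * g (i + j)
        + β ^ 2 * (g (j + j) + 2 * (a / P)))
    (hT : 1 ≤ T) (hM : 32 * (T : ℝ) ^ 2 ≤ P * (1 - b) ^ (2 * T)) :
    a * (1 - b) ^ (2 * T) / 8 ≤ g (T + T) := by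
  have hb : 0 < 1 - b := by linarith
  have hbT : 0 < (1 - b) ^ (2 * T) := pow_pos hb _
  have hbT1 : (1 - b) ^ (2 * T) ≤ 1 := pow_le_one₀ hb.le (by linarith)
  have hT1 : (1 : ℝ) ≤ T := by exact_mod_cast hT
  have hT2 : (1 : ℝ) ≤ (T : ℝ) ^ 2 := one_le_pow₀ hT1
  set η : ℝ := a / P with hη
  have hη0 : 0 < η := by positivity
  set xm : ℝ := a * (1 - b) ^ (2 * T) / 4 with hxm
  have hxm0 : 0 < xm := by positivity
  set ζ : ℝ := 4 * η / xm with hζ
  have hζ0 : 0 ≤ ζ := by positivity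
  have hζ1 : (T : ℝ) ^ 2 * ζ ≤ 1 / 2 := by
    have e : (T : ℝ) ^ 2 * ζ = 16 * (T : ℝ) ^ 2 / (P * (1 - b) ^ (2 * T)) := by
      rw [hζ, hη, hxm]
      field_simp
      ring
    rw [e, div_le_iff₀ (by positivity)]
    linarith
  have hζ2 : ζ ≤ 1 / 2 := by nlinarith
  set x : ℕ → ℝ := fun i => g (i + i) + 2 * η with hx
  have hx0 : x 0 = a * (1 + 2 / P) := by
    simp only [hx]
    rw [add_zero, h0, hη]
    ring
  set R : ℝ := 1 + 2 / P with hR
  have hR1 : 1 ≤ R := by rw [hR]; have : 0 < 2 / P := by positivity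
                         linarith
  have hR0 : 0 < R := by linarith
  set ρ : ℝ := ((1 - b) / R) ^ 2 with hρ
  have hρ0 : 0 < ρ := by positivity
  have hρ1 : ρ ≤ 1 := by
    rw [hρ]
    refine pow_le_one₀ (by positivity) ?_
    rw [div_le_one hR0]
    linarith
  have hx00 : 0 < x 0 := by rw [hx0]; positivity
  -- lower bound of the powers
  have hPT : 4 * (T : ℝ) / P ≤ 1 / 8 := by
    rw [div_le_iff₀ hP]
    have h3 : P * (1 - b) ^ (2 * T) ≤ P := mul_le_of_le_one_right hP.le hbT1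
    nlinarith
  have hRT : R ^ (2 * T) ≤ 2 := by
    have h3 : R ≤ Real.exp (2 / P) := by
      have := Real.add_one_le_exp (2 / P)
      rw [hR]; linarith
    calc R ^ (2 * T) ≤ Real.exp (2 / P) ^ (2 * T) := pow_le_pow_left₀ hR0.le h3 _
      _ = Real.exp (4 * (T : ℝ) / P) := by
          rw [← Real.exp_nat_mul]
          congr 1
          push_cast
          ring
      _ ≤ Real.exp (1 / 8) := Real.exp_le_exp.2 hPT
      _ ≤ 2 := by
          have := Real.exp_one_lt_d9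
          have h4 : Real.exp (1 / 8) ^ 8 = Real.exp 1 := by
            rw [← Real.exp_nat_mul]; norm_num
          by_contra hcon
          push Not at hcon
          have h5 : (2 : ℝ) ^ 8 ≤ Real.exp (1 / 8) ^ 8 := pow_le_pow_left₀ (by norm_num) hcon.le 8
          rw [h4] at h5
          norm_num at h5
          linarith
  have hρT : (1 - b) ^ (2 * T) / 2 ≤ ρ ^ T := by
    rw [hρ, ← pow_mul, div_pow]
    exact div_le_div_of_nonneg_left hbT.le (by positivity) hRT
  have hlow : ∀ i : ℕ, i ≤ T → xm ≤ x 0 * ρ ^ i * (1 - ζ) ^ (i ^ 2) := by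
    intro i hi
    have h3 : ρ ^ T ≤ ρ ^ i := pow_le_pow_of_le_one hρ0.le hρ1 hi
    have h4 : (1 - ζ) ^ (T ^ 2) ≤ (1 - ζ) ^ (i ^ 2) :=
      pow_le_pow_of_le_one (by linarith) (by linarith) (Nat.pow_le_pow_left hi 2)
    have h5 : 1 / 2 ≤ (1 - ζ) ^ (T ^ 2) := by
      have h6 := one_add_mul_le_pow (a := -ζ) (by linarith) (T ^ 2)
      push_cast at h6
      have e : (1 + -ζ) = 1 - ζ := by ring
      rw [e] at h6
      linarith
    have h6 : a ≤ x 0 := by rw [hx0]; exact le_mul_of_one_le_right ha.le hR1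
    calc xm = a * ((1 - b) ^ (2 * T) / 2) * (1 / 2) := by rw [hxm]; ring
      _ ≤ x 0 * ρ ^ i * (1 - ζ) ^ (i ^ 2) := by
          refine mul_le_mul (mul_le_mul h6 (hρT.trans h3) (by positivity) hx00.le)
            (h5.trans h4) (by norm_num) (by positivity)
  -- the induction
  have key : ∀ i : ℕ, i ≤ T → (x 0 * ρ ^ i * (1 - ζ) ^ (i ^ 2) ≤ x i ∧
      ρ * (1 - ζ) ^ i * x i ≤ x (i + 1)) := by
    intro i
    induction i with
    | zero =>
      intro _
      refine ⟨by simp, ?_⟩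
      have hg1 : 0 ≤ g 1 := le_trans (by positivity) h1
      have h3 := (quad_cs (x 0) (g (0 + 1)) (x 1) hg1 (fun α β hα hβ => hc 0 1 α β hα hβ)).2
      rw [zero_add] at h3
      have h4 : (1 - b) / R * x 0 ≤ g 1 := by
        rw [hx0, div_mul_eq_mul_div, div_le_iff₀ hR0]
        calc (1 - b) * (a * R) = ((1 - b) * a) * R := by ring
          _ ≤ g 1 * R := mul_le_mul_of_nonneg_right h1 hR0.le
      have h5 : ((1 - b) / R * x 0) ^ 2 ≤ g 1 ^ 2 := pow_le_pow_left₀ (by positivity) h4 2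
      have h6 : x 0 * (ρ * x 0) ≤ x 0 * x 1 := by
        calc x 0 * (ρ * x 0) = ((1 - b) / R * x 0) ^ 2 := by rw [hρ]; ring
          _ ≤ g 1 ^ 2 := h5
          _ ≤ x 0 * x 1 := h3
      have h7 := le_of_mul_le_mul_left h6 hx00
      simpa using h7
    | succ i ih =>
      intro hi
      obtain ⟨ih1, ih2⟩ := ih (by omega)
      have hz : 0 < 1 - ζ := by linarith
      have hxi : 0 < x i := lt_of_lt_of_le (by positivity) ih1
      have hA : x 0 * ρ ^ (i + 1) * (1 - ζ) ^ ((i + 1) ^ 2) ≤ x (i + 1) := by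
        refine le_trans ?_ ih2
        have h3 : (1 - ζ) ^ ((i + 1) ^ 2) ≤ (1 - ζ) ^ (i ^ 2 + i) :=
          pow_le_pow_of_le_one hz.le (by linarith) (by nlinarith)
        calc x 0 * ρ ^ (i + 1) * (1 - ζ) ^ ((i + 1) ^ 2)
            ≤ x 0 * ρ ^ (i + 1) * (1 - ζ) ^ (i ^ 2 + i) :=
              mul_le_mul_of_nonneg_left h3 (by positivity)
          _ = ρ * (1 - ζ) ^ i * (x 0 * ρ ^ i * (1 - ζ) ^ (i ^ 2)) := by
              rw [pow_succ, pow_add]; ring
          _ ≤ ρ * (1 - ζ) ^ i * x i := mul_le_mul_of_nonneg_left ih1 (by positivity)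
      refine ⟨hA, ?_⟩
      have hxm1 : xm ≤ x (i + 1) := (hlow (i + 1) hi).trans hA
      have hx1 : 0 < x (i + 1) := lt_of_lt_of_le hxm0 hxm1
      have hηx : 4 * η ≤ ζ * x (i + 1) := by
        calc 4 * η = ζ * xm := by rw [hζ]; field_simp
          _ ≤ ζ * x (i + 1) := mul_le_mul_of_nonneg_left hxm1 hζ0
      have hgi : g ((i + 1) + (i + 1)) = x (i + 1) - 2 * η := by simp only [hx]; ring
      have hg0 : 0 ≤ g (i + (i + 2)) := by
        have e : i + (i + 2) = (i + 1) + (i + 1) := by omega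
        rw [e, hgi]
        have : ζ * x (i + 1) ≤ 1 / 2 * x (i + 1) := mul_le_mul_of_nonneg_right hζ2 hx1.le
        linarith
      have h3 := (quad_cs (x i) (g (i + (i + 2))) (x (i + 2)) hg0
        (fun α β hα hβ => hc i (i + 2) α β hα hβ)).2
      have e : i + (i + 2) = (i + 1) + (i + 1) := by omega
      rw [e, hgi] at h3
      have h4 : x (i + 1) ^ 2 * (1 - ζ) ≤ x i * x (i + 2) := by
        refine le_trans ?_ h3
        have h5 : (x (i + 1) - 2 * η) ^ 2 = x (i + 1) ^ 2 - 4 * η * x (i + 1) + 4 * η ^ 2 := by ring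
        have h6 : 4 * η * x (i + 1) ≤ ζ * x (i + 1) * x (i + 1) :=
          mul_le_mul_of_nonneg_right hηx hx1.le
        rw [h5]
        nlinarith [sq_nonneg η]
      have h5 : x i * (ρ * (1 - ζ) ^ (i + 1) * x (i + 1)) ≤ x i * x (i + 1 + 1) := by
        calc x i * (ρ * (1 - ζ) ^ (i + 1) * x (i + 1))
            = (ρ * (1 - ζ) ^ i * x i) * (x (i + 1) * (1 - ζ)) := by rw [pow_succ]; ring
          _ ≤ x (i + 1) * (x (i + 1) * (1 - ζ)) :=
              mul_le_mul_of_nonneg_right ih2 (mul_nonneg hx1.le hz.le)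
          _ = x (i + 1) ^ 2 * (1 - ζ) := by ring
          _ ≤ x i * x (i + 1 + 1) := h4
      exact le_of_mul_le_mul_left h5 hxi
  have hfin := (hlow T le_rfl).trans (key T le_rfl).1
  have hgT : g (T + T) = x T - 2 * η := by simp only [hx]; ring
  rw [hgT]
  have hη2 : 2 * η ≤ xm / 4 := by
    have h3 : 32 * η ≤ a * (1 - b) ^ (2 * T) := by
      rw [hη, mul_div_assoc', div_le_iff₀ hP]
      have h4 : 32 ≤ P * (1 - b) ^ (2 * T) := by linarith
      have h5 := mul_le_mul_of_nonneg_left h4 ha.le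
      calc 32 * a = a * 32 := by ring
        _ ≤ a * (P * (1 - b) ^ (2 * T)) := h5
        _ = _ := by ring
    rw [hxm]
    linarith
  rw [hxm] at hη2 hfin
  have : 0 < a * (1 - b) ^ (2 * T) := by positivity
  linarith

end Run7.h881.SA
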