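import Pool.Agent.Run7.h881.SA.Node

/-!
The Sherali-Adams hierarchy: the kernels are positive semidefinite on samples.
-/

set_option autoImplicit false
set_option linter.unusedSectionVars false

namespace Run7.h881.SA

open Finset Pool.Agent.H647R3.UG Pool.Agent.H573R3.SL
open Pool.Agent.TH522.UG (Dep)
open Pool.Agent.TH522.UG.Mx (ind_nonneg ind_le_one sat_nonneg sat_le_one dep_ind dep_sat dep_mul
  dep_mono hsq sat_eq diag)

/-- level `k` of the Sherali-Adams hierarchy -/
structure SA {V A : Type} (k : ℕ) (L : ((V → A) → ℝ) →ₗ[ℝ] ℝ) : Prop where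
  one : L (fun _ => 1) = 1
  nonneg : ∀ S : Finset V, S.card ≤ k → ∀ f : (V → A) → ℝ, Dep S f → (∀ x, 0 ≤ f x) → 0 ≤ L f

section
variable {V A : Type} [Fintype V] [DecidableEq V] [Fintype A] [DecidableEq A]

theorem pr_nonneg {k : ℕ} {L : ((V → A) → ℝ) →ₗ[ℝ] ℝ} (hL : SA (k + 2) L) (u : V) (a : A) :
    0 ≤ pr L u a :=
  hL.nonneg {u} (by simp) _ (dep_ind u a _ (by simp)) (ind_nonneg u a)

theorem pr2_nonneg {k : ℕ} {L : ((V → A) → ℝ) →ₗ[ℝ] ℝ} (hL : SA (k + 2) L) (u v : V) (a b : A) :
    0 ≤ pr2 L u v a b := by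
  refine hL.nonneg {u, v} ?_ _ (dep_mul (dep_ind u a _ (by simp)) (dep_ind v b _ (by simp)))
    fun x => mul_nonneg (ind_nonneg u a x) (ind_nonneg v b x)
  exact (card_le_two).trans (by omega)

theorem law {k : ℕ} {L : ((V → A) → ℝ) →ₗ[ℝ] ℝ} (hL : SA (k + 2) L) (u v : V) :
    IsLaw (pr2 L u v) (pr L u) (pr L v) :=
  ⟨pr2_nonneg hL u v, FB.left L u v, FB.right L u v, FB.one L hL.one u⟩

theorem sat_le {k : ℕ} {L : ((V → A) → ℝ) →ₗ[ℝ] ℝ} (hL : SA (k + 2) L) (u v : V)
    (π : Equiv.Perm A) : L (sat u v π) ≤ 1 := by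
  rw [sat_eq]
  calc ∑ a, pr2 L u v a (π a) ≤ ∑ a, ∑ b, pr2 L u v a b := by
        apply Finset.sum_le_sum
        intro a _
        exact Finset.single_le_sum (f := fun b => pr2 L u v a b)
          (fun b _ => pr2_nonneg hL u v a b) (Finset.mem_univ (π a))
    _ = ∑ a, pr L u a := Finset.sum_congr rfl fun a _ => FB.left L u v a
    _ = 1 := FB.one L hL.one u

/-- the kernel is positive semidefinite on samples -/
theorem psd {k M : ℕ} {L : ((V → A) → ℝ) →ₗ[ℝ] ℝ} (hL : SA (k + 2) L) (hM : M ≤ k + 2) :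
    PsdM M (kr L) := by
  intro σ α
  have hpr := pr_nonneg hL
  have hsy := FB.symm L
  have key : ∀ (u v : V) (a b : A), pr2 L u v a b - pr L u a * pr L v b =
      L (fun x => (ind u a x - pr L u a) * (ind v b x - pr L v b)) := by
    intro u v a b
    have h1 : (fun x : V → A => (ind u a x - pr L u a) * (ind v b x - pr L v b)) =
        (fun x => ind u a x * ind v b x) - (pr L v b) • (ind u a) - (pr L u a) • (ind v b)
          + (pr L u a * pr L v b) • (fun _ => (1 : ℝ)) := by
      funext x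
      simp only [Pi.add_apply, Pi.sub_apply, Pi.smul_apply, smul_eq_mul]
      ring
    rw [h1, map_add, map_sub, map_sub, map_smul, map_smul, map_smul, hL.one]
    simp only [smul_eq_mul]
    change pr2 L u v a b - _ = pr2 L u v a b - pr L v b * pr L u a - pr L u a * pr L v b + _
    ring
  let c : (Fin M × A) → (Fin M × A) → ℝ := fun i j =>
    pr2 L (σ i.1) (σ j.1) i.2 j.2 - pr L (σ i.1) i.2 * pr L (σ j.1) j.2
  have hc : ∀ i j, c i j = L (fun x => (ind (σ i.1) i.2 x - pr L (σ i.1) i.2) *
      (ind (σ j.1) j.2 x - pr L (σ j.1) j.2)) := fun i j => key _ _ _ _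
  obtain ⟨B, hB⟩ := FV.gram c (fun i j => by
    simp only [c, hsy (σ i.1) (σ j.1) i.2 j.2]; ring) (fun x => by
    have h2 := hL.nonneg (univ.image σ) (card_image_le.trans (by simpa using hM))
      (fun y : V → A => (∑ i : Fin M × A, x i * (ind (σ i.1) i.2 y - pr L (σ i.1) i.2)) ^ 2)
      (by
        intro y z hyz
        have h3 : ∀ i : Fin M × A, ind (σ i.1) i.2 y = ind (σ i.1) i.2 z := fun i =>
          dep_ind (σ i.1) i.2 (univ.image σ) (mem_image_of_mem σ (mem_univ _)) y z hyz
        simp only [h3])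
      (fun y => sq_nonneg _)
    have e2 : (fun y : V → A => (∑ i : Fin M × A, x i *
        (ind (σ i.1) i.2 y - pr L (σ i.1) i.2)) ^ 2) =
        ∑ i : Fin M × A, ∑ j : Fin M × A, (x i * x j) • (fun y : V → A =>
          (ind (σ i.1) i.2 y - pr L (σ i.1) i.2) * (ind (σ j.1) j.2 y - pr L (σ j.1) j.2)) := by
      funext y
      simp only [Finset.sum_apply, Pi.smul_apply, smul_eq_mul]
      rw [sq, Finset.sum_mul_sum]
      refine Finset.sum_congr rfl fun i _ => Finset.sum_congr rfl fun j _ => by ring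
    rw [e2] at h2
    simp only [map_sum, map_smul, smul_eq_mul] at h2
    simpa only [hc] using h2)
  -- the Gram vectors
  set U : ((Fin M × A) × (Fin M × A)) → Fin M → ℝ := fun kl i =>
    ∑ a, B kl.1 (i, a) * B kl.2 (i, a) / Real.sqrt (pr L (σ i) a) with hU
  have hgram : ∀ i j : Fin M, kr L (σ i) (σ j) = ∑ kl, U kl i * U kl j := by
    intro i j
    unfold kr ker
    have hsq' : ∀ a b, (pr2 L (σ i) (σ j) a b - pr L (σ i) a * pr L (σ j) b) ^ 2 =
        ∑ kl : (Fin M × A) × (Fin M × A), (B kl.1 (i, a) * B kl.2 (i, a)) *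
          (B kl.1 (j, b) * B kl.2 (j, b)) := by
      intro a b
      have h := hB (i, a) (j, b)
      simp only [c] at h
      rw [h, sq, Finset.sum_mul_sum]
      conv_rhs => rw [Fintype.sum_prod_type]
      refine Finset.sum_congr rfl fun i _ => Finset.sum_congr rfl fun j _ => ?_
      simp only []
      ring
    have hs : ∀ a b, Real.sqrt (pr L (σ i) a * pr L (σ j) b) =
        Real.sqrt (pr L (σ i) a) * Real.sqrt (pr L (σ j) b) :=
      fun a b => Real.sqrt_mul (hpr (σ i) a) _
    simp only [hsq', hs, Finset.sum_div]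
    have e3 : ∀ kl : (Fin M × A) × (Fin M × A), U kl i * U kl j =
        ∑ a, ∑ b, (B kl.1 (i, a) * B kl.2 (i, a)) *
          (B kl.1 (j, b) * B kl.2 (j, b)) / (Real.sqrt (pr L (σ i) a) *
            Real.sqrt (pr L (σ j) b)) := by
      intro kl
      simp only [hU]
      rw [Finset.sum_mul_sum]
      refine Finset.sum_congr rfl fun a _ => Finset.sum_congr rfl fun b _ => ?_
      rw [div_mul_div_comm]
    simp only [e3]
    rw [Finset.sum_comm]
    rw [Finset.sum_comm]
    conv_rhs => rw [Finset.sum_comm]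
    refine Finset.sum_congr rfl fun a _ => ?_
    rw [Finset.sum_comm]
  have h1 : ∑ i, ∑ j, α i * α j * kr L (σ i) (σ j) = ∑ kl, (∑ i, α i * U kl i) ^ 2 := by
    have h2 : ∀ kl, (∑ i, α i * U kl i) ^ 2 = ∑ i, ∑ j, α i * α j * (U kl i * U kl j) := by
      intro kl
      rw [sq, Finset.sum_mul_sum]
      refine Finset.sum_congr rfl fun i _ => Finset.sum_congr rfl fun j _ => by ring
    simp only [h2, hgram]
    rw [Finset.sum_comm]
    conv_rhs => rw [Finset.sum_comm]
    rw [Finset.sum_comm]
    refine Finset.sum_congr rfl fun i _ => ?_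
    conv_rhs => rw [Finset.sum_comm]
    refine Finset.sum_congr rfl fun j _ => ?_
    rw [mul_sum]
  rw [h1]
  exact sum_nonneg fun kl _ => sq_nonneg _

/-- decrease of the variance by conditioning -/
theorem fd {L : ((V → A) → ℝ) →ₗ[ℝ] ℝ} (u v : V)
    (h : IsLaw (pr2 L u v) (pr L u) (pr L v)) :
    dec L u v = vr L v - ∑ a, pr L u a * vr (cnd L u a) v := by
  set p : A → ℝ := pr L u with hp
  set q : A → ℝ := pr L v with hq
  set r : A → A → ℝ := pr2 L u v with hr
  have hc : ∀ a b, pr (cnd L u a) v b = r a b / p a := fun a b => rfl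
  have hr0 : ∀ a, p a = 0 → ∀ b, r a b = 0 := by
    intro a ha b
    have h1 : r a b ≤ ∑ b, r a b :=
      single_le_sum (f := fun b => r a b) (fun b _ => h.nonneg a b) (mem_univ b)
    rw [h.left a, ha] at h1
    exact le_antisymm h1 (h.nonneg a b)
  have e1 : ∀ a b, (r a b - p a * q b) ^ 2 / p a = r a b ^ 2 / p a - 2 * (r a b * q b) +
      p a * q b ^ 2 := by
    intro a b
    by_cases ha : p a = 0
    · rw [hr0 a ha b, ha]; simp
    · field_simp
      ring
  have e2 : ∀ a, p a * vr (cnd L u a) v = p a - ∑ b, r a b ^ 2 / p a := by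
    intro a
    unfold vr
    simp only [hc]
    rw [mul_sub, mul_one, mul_sum]
    congr 1
    apply sum_congr rfl
    intro b _
    by_cases ha : p a = 0
    · rw [ha]; simp
    · field_simp
  have e3 : dec L u v = (∑ a, ∑ b, r a b ^ 2 / p a) - ∑ b, q b ^ 2 := by
    unfold dec
    change ∑ a, ∑ b, (r a b - p a * q b) ^ 2 / p a = _
    simp only [e1, sum_add_distrib, sum_sub_distrib]
    have f1 : ∑ a, ∑ b, 2 * (r a b * q b) = 2 * ∑ b, q b ^ 2 := by
      rw [sum_comm, mul_sum]
      apply sum_congr rfl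
      intro b _
      rw [← mul_sum, ← sum_mul, h.right b]
      ring
    have f2 : ∑ a, ∑ b, p a * q b ^ 2 = ∑ b, q b ^ 2 := by
      simp only [← mul_sum]
      rw [← sum_mul, h.one, one_mul]
    rw [f1, f2]
    ring
  have e4 : ∑ a, pr L u a * vr (cnd L u a) v = 1 - ∑ a, ∑ b, r a b ^ 2 / p a := by
    change ∑ a, p a * vr (cnd L u a) v = _
    simp only [e2, sum_sub_distrib]
    rw [h.one]
  rw [e3, e4]
  unfold vr
  change _ = 1 - ∑ b, q b ^ 2 - _
  ring

theorem step {k : ℕ} {L : ((V → A) → ℝ) →ₗ[ℝ] ℝ} (hL : SA (k + 1) L) (u : V) (a : A)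
    (ha : 0 < pr L u a) : SA k (cnd L u a) := by
  refine ⟨?_, fun S hS f hf hf0 => ?_⟩
  · show L (fun x => ind u a x * 1) / pr L u a = 1
    simp only [mul_one]
    exact div_self ha.ne'
  · show 0 ≤ L (fun x => ind u a x * f x) / pr L u a
    refine div_nonneg (hL.nonneg (insert u S) ?_ _ (dep_mul (dep_ind u a _ (mem_insert_self _ _))
      (dep_mono hf (subset_insert _ _))) fun x => mul_nonneg (ind_nonneg u a x) (hf0 x)) ha.le
    exact (card_insert_le _ _).trans (by omega)

theorem mono {k : ℕ} {L : ((V → A) → ℝ) →ₗ[ℝ] ℝ} (hL : SA (k + 1) L) : SA k L :=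
  ⟨hL.one, fun S hS => hL.nonneg S (by omega)⟩

theorem avg {k : ℕ} {L : ((V → A) → ℝ) →ₗ[ℝ] ℝ} (hL : SA (k + 3) L) (u v w : V)
    (π : Equiv.Perm A) : ∑ a, pr L u a * cnd L u a (sat v w π) = L (sat v w π) := by
  have h1 : ∀ a, pr L u a * cnd L u a (sat v w π) = L (fun x => ind u a x * sat v w π x) := by
    intro a
    show pr L u a * (L (fun x => ind u a x * sat v w π x) / pr L u a) = _
    by_cases ha : pr L u a = 0
    · rw [ha, zero_mul]
      have hS : ({u, v, w} : Finset V).card ≤ k + 3 := card_le_three.trans (by omega)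
      have h2 : 0 ≤ L (fun x => ind u a x * sat v w π x) :=
        hL.nonneg {u, v, w} hS _ (dep_mul (dep_ind u a _ (by simp))
          (dep_sat v w π _ (by simp) (by simp))) fun x =>
          mul_nonneg (ind_nonneg u a x) (sat_nonneg v w π x)
      have h3 : 0 ≤ L (fun x => ind u a x - ind u a x * sat v w π x) := by
        refine hL.nonneg {u, v, w} hS _ ?_ fun x => ?_
        · intro x y h
          have d1 := dep_mul (dep_ind u a {u, v, w} (by simp))
            (dep_sat v w π {u, v, w} (by simp) (by simp)) x y h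
          have d2 := dep_ind u a {u, v, w} (by simp) x y h
          show ind u a x - ind u a x * sat v w π x = ind u a y - ind u a y * sat v w π y
          simp only at d1
          rw [d1, d2]
        · have := mul_le_mul_of_nonneg_left (sat_le_one v w π x) (ind_nonneg u a x)
          linarith
      have h4 : (fun x : V → A => ind u a x - ind u a x * sat v w π x) =
          ind u a - fun x => ind u a x * sat v w π x := rfl
      rw [h4, map_sub] at h3
      have h5 : L (ind u a) = 0 := ha
      linarith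
    · rw [mul_div_cancel₀ _ ha]
  simp only [h1]
  rw [← map_sum]
  congr 1
  funext x
  rw [Finset.sum_apply, ← Finset.sum_mul, FB.sum_ind, one_mul]

end

/-- the Sherali-Adams hierarchy is closed under conditioning -/
theorem hier_sa (V A : Type) [Fintype V] [DecidableEq V] [Fintype A] [DecidableEq A] (M : ℕ) :
    HierS (V := V) (A := A) M (fun k L => SA (k + (M + 2)) L) where
  fct k L hL := by
    have h : SA ((k + M) + 2) L := hL
    exact ⟨law h, pr_nonneg h, FB.symm L, diag L, sat_eq L, sat_le h, psd h (by omega),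
      fun u v => fd u v (law h u v)⟩
  step k L hL u a ha := by
    have h : SA ((k + (M + 2)) + 1) L := by
      have e : k + (M + 2) + 1 = k + 1 + (M + 2) := by omega
      rw [e]; exact hL
    exact step h u a ha
  mono k L hL := by
    have h : SA ((k + (M + 2)) + 1) L := by
      have e : k + (M + 2) + 1 = k + 1 + (M + 2) := by omega
      rw [e]; exact hL
    exact mono h
  avg k L hL u v w π := by
    have h : SA ((k + M) + 3) L := by
      have e : k + M + 3 = k + 1 + (M + 2) := by omega
      rw [e]; exact hL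
    exact avg h u v w π

end Run7.h881.SA
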