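import Pool.Agent.Run7.h881.SA.Kill

/-!
Approximate logarithmic convexity along the killed walk of the correlations of a kernel which is positive
semidefinite on samples of `M` points.
-/

set_option autoImplicit false
set_option linter.unusedSectionVars false

namespace Run7.h881.SA

open Finset Pool.Agent.H647R3.UG Pool.Agent.H573R3.SL

section
variable {W : Type} [Fintype W] [DecidableEq W]

/-- the correlation after `s` steps -/
noncomputable def cor (w : W → W → ℝ) (m : W → ℝ) (A : Finset W) (G : W → W → ℝ) (s : ℕ) : ℝ :=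
  ∑ u ∈ A, ∑ v ∈ A, m u * m v * hk w m A s v u * G u v

/-- the trace on `A` -/
def trA (m : W → ℝ) (A : Finset W) (G : W → W → ℝ) : ℝ := ∑ u ∈ A, m u * G u u

variable {w : W → W → ℝ} {m : W → ℝ} (hN : IsNet w m) (A : Finset W) (G : W → W → ℝ)
include hN

theorem cor_zero : cor w m A G 0 = trA m A G := by
  unfold cor trA
  refine sum_congr rfl fun u hu => ?_
  rw [sum_eq_single u]
  · rw [hk_zero]
    unfold dl
    rw [if_pos rfl]
    have := (hN.pos u).ne'
    field_simp
  · intro v _ hv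
    rw [hk_zero]
    unfold dl
    rw [if_neg (fun e => hv e.symm)]
    ring
  · intro h; exact absurd hu h

/-- correlations of the kernel with two heat kernels from a common starting point -/
theorem cor_add (i j : ℕ) :
    cor w m A G (i + j) = ∑ x ∈ A, m x * ∑ u ∈ A, ∑ v ∈ A,
      (m u * hk w m A i x u) * (m v * hk w m A j x v) * G u v := by
  have h1 : ∀ u ∈ A, ∀ v ∈ A, hk w m A (i + j) v u =
      ∑ x ∈ A, m x * hk w m A i x u * hk w m A j x v := by
    intro u hu v hv
    rw [← hk_mul hN A i j u v hu hv]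
    rw [← sum_subset (subset_univ A)]
    · refine sum_congr rfl fun x hx => ?_
      rw [hk_symm hN A i x u hx hu, hk_symm hN A j x v hx hv]
    · intro x _ hx
      rw [hk_sup A i u hu x hx]; ring
  unfold cor
  have h2 : ∀ u ∈ A, ∀ v ∈ A, m u * m v * hk w m A (i + j) v u * G u v =
      ∑ x ∈ A, m x * ((m u * hk w m A i x u) * (m v * hk w m A j x v) * G u v) := by
    intro u hu v hv
    rw [h1 u hu v hv, mul_sum, sum_mul]
    exact sum_congr rfl fun x _ => by ring
  rw [sum_congr rfl fun u hu => sum_congr rfl fun v hv => h2 u hu v hv]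
  simp only [mul_sum]
  calc ∑ u ∈ A, ∑ v ∈ A, ∑ x ∈ A, m x * ((m u * hk w m A i x u) * (m v * hk w m A j x v) * G u v)
      = ∑ u ∈ A, ∑ x ∈ A, ∑ v ∈ A,
        m x * ((m u * hk w m A i x u) * (m v * hk w m A j x v) * G u v) :=
        sum_congr rfl fun u _ => sum_comm
    _ = _ := sum_comm

/-- the total mass of the heat kernels at one point -/
theorem hk_row (s : ℕ) (u : W) (hu : u ∈ A) : ∑ x ∈ A, m x * hk w m A s x u ≤ 1 := by
  refine le_trans ?_ (hk_sum hN A s u)
  calc ∑ x ∈ A, m x * hk w m A s x u = ∑ x ∈ A, m x * hk w m A s u x :=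
        sum_congr rfl fun x hx => by rw [hk_symm hN A s u x hu hx]
    _ ≤ ∑ x, m x * hk w m A s u x := sum_le_sum_of_subset_of_nonneg (subset_univ A)
        fun x _ _ => mul_nonneg (hN.pos x).le (hk_nonneg hN A s u x)

/-- **approximate convexity** -/
theorem conv (M : ℕ) (hM : 2 ≤ M) (hG : PsdM M G) (hG0 : ∀ u, 0 ≤ G u u)
    (hGs : ∀ u v, G u v = G v u) (i j : ℕ) (α β : ℝ)
    (hα : 0 ≤ α) (hβ : 0 ≤ β) :
    0 ≤ α ^ 2 * (cor w m A G (i + i) + 2 * (trA m A G / (M - 1)))
      - 2 * α * β * cor w m A G (i + j)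
      + β ^ 2 * (cor w m A G (j + j) + 2 * (trA m A G / (M - 1))) := by
  have hM1 : (0 : ℝ) < (M : ℝ) - 1 := by
    have : (2 : ℝ) ≤ M := by exact_mod_cast hM
    linarith
  set F : W → W → ℝ := fun x u =>
    if u ∈ A then m u * (α * hk w m A i x u - β * hk w m A j x u) else 0 with hF
  have hFabs : ∀ x u, |F x u| ≤ if u ∈ A then m u * (α * hk w m A i x u + β * hk w m A j x u)
      else 0 := by
    intro x u
    simp only [hF]
    split_ifs
    · rw [abs_mul, abs_of_pos (hN.pos u)]
      refine mul_le_mul_of_nonneg_left ?_ (hN.pos u).le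
      have h1 : 0 ≤ α * hk w m A i x u := mul_nonneg hα (hk_nonneg hN A i x u)
      have h2 : 0 ≤ β * hk w m A j x u := mul_nonneg hβ (hk_nonneg hN A j x u)
      rw [abs_le]
      constructor <;> linarith
    · simp
  -- the L1 norm
  have hL1 : ∀ x, ∑ u, |F x u| ≤ α + β := by
    intro x
    refine (sum_le_sum fun u _ => hFabs x u).trans ?_
    rw [← sum_filter]
    calc ∑ u ∈ univ.filter (fun u => u ∈ A), m u * (α * hk w m A i x u + β * hk w m A j x u)
        ≤ ∑ u, m u * (α * hk w m A i x u + β * hk w m A j x u) :=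
          sum_le_sum_of_subset_of_nonneg (subset_univ _) fun u _ _ =>
            mul_nonneg (hN.pos u).le (add_nonneg (mul_nonneg hα (hk_nonneg hN A i x u))
              (mul_nonneg hβ (hk_nonneg hN A j x u)))
      _ = α * ∑ u, m u * hk w m A i x u + β * ∑ u, m u * hk w m A j x u := by
          rw [mul_sum, mul_sum, ← sum_add_distrib]
          exact sum_congr rfl fun u _ => by ring
      _ ≤ α * 1 + β * 1 := add_le_add (mul_le_mul_of_nonneg_left (hk_sum hN A i x) hα)
          (mul_le_mul_of_nonneg_left (hk_sum hN A j x) hβ)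
      _ = α + β := by ring
  have hs := fun x => samp G M hM hG (F x)
  have hL10 : ∀ x, 0 ≤ ∑ u, |F x u| := fun x => sum_nonneg fun u _ => abs_nonneg _
  have hD0 : ∀ x, 0 ≤ ∑ u, |F x u| * G u u := fun x =>
    sum_nonneg fun u _ => mul_nonneg (abs_nonneg _) (hG0 u)
  -- sum over the starting points
  have h1 : 0 ≤ ∑ x ∈ A, m x * (((M : ℝ) - 1) * (∑ u, ∑ v, F x u * F x v * G u v)
      + (α + β) * ∑ u, |F x u| * G u u) := by
    refine sum_nonneg fun x _ => mul_nonneg (hN.pos x).le ?_
    refine (hs x).trans (add_le_add le_rfl ?_)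
    exact mul_le_mul_of_nonneg_right (hL1 x) (hD0 x)
  have h2 : ∑ x ∈ A, m x * (∑ u, ∑ v, F x u * F x v * G u v) =
      α ^ 2 * cor w m A G (i + i) - 2 * α * β * cor w m A G (i + j)
      + β ^ 2 * cor w m A G (j + j) := by
    have h3 : ∀ x, ∑ u, ∑ v, F x u * F x v * G u v =
        ∑ u ∈ A, ∑ v ∈ A, (m u * (α * hk w m A i x u - β * hk w m A j x u)) *
          (m v * (α * hk w m A i x v - β * hk w m A j x v)) * G u v := by
      intro x
      symm
      rw [← sum_subset (subset_univ A)]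
      · refine sum_congr rfl fun u hu => ?_
        rw [← sum_subset (subset_univ A)]
        · refine sum_congr rfl fun v hv => ?_
          simp only [hF]
          rw [if_pos hu, if_pos hv]
        · intro v _ hv
          simp only [hF]
          rw [if_neg hv]; ring
      · intro u _ hu
        refine sum_eq_zero fun v _ => ?_
        simp only [hF]
        rw [if_neg hu]; ring
    have h4 : ∀ x, ∑ u, ∑ v, F x u * F x v * G u v =
        α ^ 2 * (∑ u ∈ A, ∑ v ∈ A, (m u * hk w m A i x u) * (m v * hk w m A i x v) * G u v)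
        - 2 * α * β * (∑ u ∈ A, ∑ v ∈ A, (m u * hk w m A i x u) * (m v * hk w m A j x v) * G u v)
        + β ^ 2 * (∑ u ∈ A, ∑ v ∈ A, (m u * hk w m A j x u) * (m v * hk w m A j x v) * G u v) := by
      intro x
      have h5 : ∑ u ∈ A, ∑ v ∈ A, (m u * hk w m A j x u) * (m v * hk w m A i x v) * G u v =
          ∑ u ∈ A, ∑ v ∈ A, (m u * hk w m A i x u) * (m v * hk w m A j x v) * G u v := by
        rw [sum_comm]
        refine sum_congr rfl fun u _ => sum_congr rfl fun v _ => ?_
        rw [hGs v u]; ring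
      have h6 : ∑ u ∈ A, ∑ v ∈ A, (m u * (α * hk w m A i x u - β * hk w m A j x u)) *
          (m v * (α * hk w m A i x v - β * hk w m A j x v)) * G u v =
          α ^ 2 * (∑ u ∈ A, ∑ v ∈ A, (m u * hk w m A i x u) * (m v * hk w m A i x v) * G u v)
          - α * β * (∑ u ∈ A, ∑ v ∈ A, (m u * hk w m A i x u) * (m v * hk w m A j x v) * G u v)
          - α * β * (∑ u ∈ A, ∑ v ∈ A, (m u * hk w m A j x u) * (m v * hk w m A i x v) * G u v)
          + β ^ 2 * (∑ u ∈ A, ∑ v ∈ A, (m u * hk w m A j x u) * (m v * hk w m A j x v) * G u v)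
          := by
        simp only [mul_sum]
        simp only [← sum_sub_distrib, ← sum_add_distrib]
        exact sum_congr rfl fun u _ => sum_congr rfl fun v _ => by ring
      rw [h3 x, h6, h5]
      ring
    rw [cor_add hN A G i i, cor_add hN A G i j, cor_add hN A G j j]
    simp only [h4]
    rw [mul_sum, mul_sum, mul_sum, ← sum_sub_distrib, ← sum_add_distrib]
    exact sum_congr rfl fun x _ => by ring
  have h3 : ∑ x ∈ A, m x * ∑ u, |F x u| * G u u ≤ (α + β) * trA m A G := by
    have h4 : ∀ x ∈ A, m x * ∑ u, |F x u| * G u u ≤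
        ∑ u ∈ A, (m u * G u u) * (α * (m x * hk w m A i x u) + β * (m x * hk w m A j x u)) := by
      intro x _
      rw [mul_sum, ← sum_subset (subset_univ A)]
      · refine sum_le_sum fun u hu => ?_
        have h5 := hFabs x u
        rw [if_pos hu] at h5
        have h6 := mul_le_mul_of_nonneg_right h5 (hG0 u)
        have h7 := mul_le_mul_of_nonneg_left h6 (hN.pos x).le
        refine h7.trans (le_of_eq (by ring))
      · intro u _ hu
        simp only [hF]
        rw [if_neg hu]; simp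
    refine (sum_le_sum h4).trans ?_
    rw [sum_comm]
    unfold trA
    rw [mul_sum]
    refine sum_le_sum fun u hu => ?_
    rw [← mul_sum, sum_add_distrib, ← mul_sum, ← mul_sum]
    have h5 := hk_row hN A i u hu
    have h6 := hk_row hN A j u hu
    have h7 : 0 ≤ m u * G u u := mul_nonneg (hN.pos u).le (hG0 u)
    have h8 : α * ∑ x ∈ A, m x * hk w m A i x u + β * ∑ x ∈ A, m x * hk w m A j x u ≤
        α + β := by nlinarith
    calc m u * G u u * (α * ∑ x ∈ A, m x * hk w m A i x u + β * ∑ x ∈ A, m x * hk w m A j x u)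
        ≤ m u * G u u * (α + β) := mul_le_mul_of_nonneg_left h8 h7
      _ = _ := by ring
  have h4 : ∑ x ∈ A, m x * (((M : ℝ) - 1) * (∑ u, ∑ v, F x u * F x v * G u v)
      + (α + β) * ∑ u, |F x u| * G u u) =
      ((M : ℝ) - 1) * (∑ x ∈ A, m x * (∑ u, ∑ v, F x u * F x v * G u v)) +
      (α + β) * ∑ x ∈ A, m x * ∑ u, |F x u| * G u u := by
    rw [mul_sum, mul_sum, ← sum_add_distrib]
    exact sum_congr rfl fun x _ => by ring
  rw [h4, h2] at h1
  have h5 : 0 ≤ α + β := by linarith
  have h6 := mul_le_mul_of_nonneg_left h3 h5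
  have htr : 0 ≤ trA m A G := sum_nonneg fun u _ => mul_nonneg (hN.pos u).le (hG0 u)
  have h7 : (α + β) * ((α + β) * trA m A G) ≤ (2 * α ^ 2 + 2 * β ^ 2) * trA m A G := by
    have : (α + β) * (α + β) ≤ 2 * α ^ 2 + 2 * β ^ 2 := by nlinarith [sq_nonneg (α - β)]
    rw [← mul_assoc]
    exact mul_le_mul_of_nonneg_right this htr
  have h8 : 0 ≤ ((M : ℝ) - 1) * (α ^ 2 * cor w m A G (i + i) - 2 * α * β * cor w m A G (i + j)
      + β ^ 2 * cor w m A G (j + j)) + (2 * α ^ 2 + 2 * β ^ 2) * trA m A G := by linarith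
  have h9 : ((M : ℝ) - 1) * (α ^ 2 * (cor w m A G (i + i) + 2 * (trA m A G / (M - 1)))
      - 2 * α * β * cor w m A G (i + j)
      + β ^ 2 * (cor w m A G (j + j) + 2 * (trA m A G / (M - 1)))) =
      ((M : ℝ) - 1) * (α ^ 2 * cor w m A G (i + i) - 2 * α * β * cor w m A G (i + j)
      + β ^ 2 * cor w m A G (j + j)) + (2 * α ^ 2 + 2 * β ^ 2) * trA m A G := by
    field_simp
    ring
  rw [← h9] at h8
  exact nonneg_of_mul_nonneg_right h8 hM1

/-- the correlation after one step -/
theorem cor_one (hG0 : ∀ u, 0 ≤ G u u) (b : ℝ)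
    (hE : (1 / 2) * (∑ u ∈ A, ∑ v ∈ A, w u v * (G u u + G v v - 2 * G u v))
      + ∑ u ∈ A, ∑ v ∈ univ \ A, w u v * G u u ≤ b * trA m A G) :
    (1 - b / 2) * trA m A G ≤ cor w m A G 1 := by
  have h1 : ∀ u ∈ A, ∀ v ∈ A, m u * m v * hk w m A 1 v u * G u v =
      (if u = v then m u * G u u - (1 / 2) * (∑ x, w u x) * G u u else 0)
        + (1 / 2) * (w u v * G u v) := by
    intro u hu v hv
    have h2 : hk w m A 1 v u = lz w m (dl m v) u := by
      rw [show (1 : ℕ) = 0 + 1 from rfl, hk_succ, hk_zero]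
      unfold kl
      rw [if_pos hu]
    rw [h2]
    have hmu := (hN.pos u).ne'
    have hmv := (hN.pos v).ne'
    have h3 : m u * lz w m (dl m v) u = m u * dl m v u
        - (1 / 2) * ∑ x, w u x * (dl m v u - dl m v x) := OPX.m_lz hN _ u
    have h4 : ∑ x, w u x * (dl m v u - dl m v x) = (∑ x, w u x) * dl m v u - w u v / m v := by
      simp only [mul_sub, sum_sub_distrib]
      rw [sum_mul]
      congr 1
      unfold dl
      rw [sum_eq_single v]
      · rw [if_pos rfl]; ring
      · intro x _ hx; rw [if_neg hx, mul_zero]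
      · intro h; exact absurd (mem_univ v) h
    have h5 : m u * m v * lz w m (dl m v) u * G u v = (m u * lz w m (dl m v) u) * m v * G u v := by
      ring
    rw [h5, h3, h4]
    unfold dl
    split_ifs with h
    · subst h
      field_simp
      ring
    · field_simp
      ring
  unfold cor
  rw [sum_congr rfl fun u hu => sum_congr rfl fun v hv => h1 u hu v hv]
  simp only [sum_add_distrib]
  have h2 : ∑ u ∈ A, ∑ v ∈ A, (if u = v then m u * G u u - (1 / 2) * (∑ x, w u x) * G u u else 0) =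
      trA m A G - (1 / 2) * ∑ u ∈ A, ∑ x, w u x * G u u := by
    unfold trA
    rw [mul_sum, ← sum_sub_distrib]
    refine sum_congr rfl fun u hu => ?_
    rw [sum_ite_eq, if_pos hu, ← sum_mul]
    ring
  rw [h2]
  have h3 : ∑ u ∈ A, ∑ x, w u x * G u u = (∑ u ∈ A, ∑ v ∈ A, w u v * G u u)
      + ∑ u ∈ A, ∑ v ∈ univ \ A, w u v * G u u := by
    rw [← sum_add_distrib]
    refine sum_congr rfl fun u _ => ?_
    rw [← sum_sdiff (subset_univ A), add_comm]
  have h4 : ∑ u ∈ A, ∑ v ∈ A, w u v * G v v = ∑ u ∈ A, ∑ v ∈ A, w u v * G u u := by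
    rw [sum_comm]
    refine sum_congr rfl fun u _ => sum_congr rfl fun v _ => ?_
    rw [hN.symm v u]
  have h5 : ∑ u ∈ A, ∑ v ∈ A, w u v * (G u u + G v v - 2 * G u v) =
      2 * (∑ u ∈ A, ∑ v ∈ A, w u v * G u u) - 2 * ∑ u ∈ A, ∑ v ∈ A, w u v * G u v := by
    have h6 : ∑ u ∈ A, ∑ v ∈ A, w u v * (G u u + G v v - 2 * G u v) =
        (∑ u ∈ A, ∑ v ∈ A, w u v * G u u) + (∑ u ∈ A, ∑ v ∈ A, w u v * G v v)
          - 2 * ∑ u ∈ A, ∑ v ∈ A, w u v * G u v := by
      rw [mul_sum, ← sum_add_distrib, ← sum_sub_distrib]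
      refine sum_congr rfl fun u _ => ?_
      rw [mul_sum, ← sum_add_distrib, ← sum_sub_distrib]
      exact sum_congr rfl fun v _ => by ring
    rw [h6, h4]; ring
  have h6 : ∑ u ∈ A, ∑ v ∈ A, (1 / 2) * (w u v * G u v) =
      (1 / 2) * ∑ u ∈ A, ∑ v ∈ A, w u v * G u v := by
    simp only [mul_sum]
  rw [h6]
  rw [h5] at hE
  linarith

end

end Run7.h881.SA
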