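import Pool.Agent.Run7.h881.SA.Conv
import Pool.Agent.Run7.h881.SA.Seq

/-!
Global correlation of kernels which are positive semidefinite on samples, on a weighted graph with a
logarithmic Sobolev inequality.
-/

set_option autoImplicit false
set_option linter.unusedSectionVars false

namespace Run7.h881.SA

open Finset Pool.Agent.H647R3.UG Pool.Agent.H573R3.SL

/-- the numbers of steps -/
theorem numb (l τ q s1 s0 : ℝ) (T : ℕ) (hl : 0 < l) (hτ : 0 < τ) (hτ1 : τ ≤ 1) (hq : 0 < q)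
    (hq1 : q ≤ 1) (hs1 : 0 < s1) (hs11 : s1 ≤ 1) (hs0 : s0 = min s1 (1 / l))
    (hT : T = ⌈2 / (s0 * l) * Real.log (1 / q)⌉₊ + 1) :
    0 < s0 ∧ s0 ≤ s1 ∧ s0 * l ≤ 1 ∧ 1 ≤ T ∧
      (T : ℝ) ≤ 2 + 2 * Real.log (1 / q) + 2 * Real.log (1 / q) / (s1 * l) ∧
      (1 - s0 * l / 4) ^ (T + T) ≤ q ∧
      1 / 16 * Real.exp (-(4 * τ / l * Real.log (1 / q))) ≤ (1 - s0 * τ / 2) ^ (2 * T) := by
  have hL : 0 ≤ Real.log (1 / q) := Real.log_nonneg (by rw [le_div_iff₀ hq]; linarith)
  have h1 : 0 < s0 := by rw [hs0]; positivity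
  have h2 : s0 ≤ s1 := by rw [hs0]; exact min_le_left _ _
  have h3 : s0 * l ≤ 1 := by
    have : s0 ≤ 1 / l := by rw [hs0]; exact min_le_right _ _
    rwa [le_div_iff₀ hl] at this
  have hsl0 : 0 < s0 * l := mul_pos h1 hl
  have h4 : 1 / (s0 * l) ≤ 1 + 1 / (s1 * l) := by
    rcases le_total s1 (1 / l) with h | h
    · have : s0 = s1 := by rw [hs0, min_eq_left h]
      rw [this]
      linarith
    · have : s0 = 1 / l := by rw [hs0, min_eq_right h]
      rw [this, one_div_mul_cancel hl.ne']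
      have : 0 < 1 / (s1 * l) := by positivity
      linarith
  set Λ := Real.log (1 / q) with hΛ
  have hA : 0 ≤ 2 / (s0 * l) * Λ := by positivity
  have hTl : 2 / (s0 * l) * Λ + 1 ≤ T := by
    rw [hT]; push_cast
    have := Nat.le_ceil (2 / (s0 * l) * Λ)
    linarith
  have hTu : (T : ℝ) ≤ 2 / (s0 * l) * Λ + 2 := by
    rw [hT]; push_cast
    have := Nat.ceil_lt_add_one hA
    linarith
  refine ⟨h1, h2, h3, by rw [hT]; omega, ?_, ?_, ?_⟩
  · have h5 : 2 / (s0 * l) * Λ ≤ 2 * Λ + 2 * Λ / (s1 * l) := by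
      have h6 := mul_le_mul_of_nonneg_right h4 hL
      calc 2 / (s0 * l) * Λ = 2 * (1 / (s0 * l) * Λ) := by ring
        _ ≤ 2 * ((1 + 1 / (s1 * l)) * Λ) := by linarith
        _ = _ := by ring
    linarith
  · have a1 : 1 - s0 * l / 4 ≤ Real.exp (-(s0 * l / 4)) := by
      have := Real.add_one_le_exp (-(s0 * l / 4))
      linarith
    calc (1 - s0 * l / 4) ^ (T + T) ≤ Real.exp (-(s0 * l / 4)) ^ (T + T) :=
          pow_le_pow_left₀ (by linarith) a1 _
      _ = Real.exp ((T + T : ℕ) * -(s0 * l / 4)) := by rw [← Real.exp_nat_mul]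
      _ ≤ Real.exp (-Λ) := by
          apply Real.exp_le_exp.2
          have a2 : Λ = (2 / (s0 * l) * Λ) * (s0 * l / 2) := by field_simp
          have a3 : (2 / (s0 * l) * Λ) * (s0 * l / 2) ≤ T * (s0 * l / 2) :=
            mul_le_mul_of_nonneg_right (by linarith) (by positivity)
          push_cast
          linarith
      _ = q := by
          rw [hΛ, ← Real.log_inv, one_div, inv_inv, Real.exp_log hq]
  · have hst : 0 ≤ s0 * τ := by positivity
    have hst1 : s0 * τ ≤ 1 := by nlinarith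
    have h5 := GC.exp_le (s0 * τ) hst hst1
    have h6 : Real.exp (-(s0 * τ * Real.log 2)) ^ (2 * T) ≤ (1 - s0 * τ / 2) ^ (2 * T) :=
      pow_le_pow_left₀ (Real.exp_pos _).le h5 _
    refine le_trans ?_ h6
    rw [← Real.exp_nat_mul]
    have hl2 : Real.log 2 ≤ 1 := by
      have := Real.log_two_lt_d9; linarith
    have hl0 : 0 ≤ Real.log 2 := Real.log_nonneg (by norm_num)
    have hq4 : Real.exp (-(4 * Real.log 2)) = 1 / 16 := by
      rw [Real.exp_neg, show 4 * Real.log 2 = Real.log 2 + Real.log 2 + (Real.log 2 + Real.log 2)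
        by ring, Real.exp_add, Real.exp_add, Real.exp_log (by norm_num : (0 : ℝ) < 2)]
      norm_num
    have hx0 : 0 ≤ 4 * τ / l * Λ := by positivity
    have h7 : -(4 * Real.log 2) + -(4 * τ / l * Λ) ≤
        ((2 * T : ℕ) : ℝ) * -(s0 * τ * Real.log 2) := by
      push_cast
      have b1 : 2 * (T : ℝ) * (s0 * τ) ≤ 4 * τ / l * Λ + 4 := by
        calc 2 * (T : ℝ) * (s0 * τ) ≤ 2 * (2 / (s0 * l) * Λ + 2) * (s0 * τ) :=
              mul_le_mul_of_nonneg_right (by linarith) hst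
          _ = 4 * τ / l * Λ + 4 * (s0 * τ) := by field_simp; ring
          _ ≤ _ := by linarith
      have b2 : (2 * (T : ℝ) * (s0 * τ)) * Real.log 2 ≤ (4 * τ / l * Λ + 4) * Real.log 2 :=
        mul_le_mul_of_nonneg_right b1 hl0
      have b3 : (4 * τ / l * Λ) * Real.log 2 ≤ (4 * τ / l * Λ) * 1 :=
        mul_le_mul_of_nonneg_left hl2 hx0
      nlinarith
    calc 1 / 16 * Real.exp (-(4 * τ / l * Λ))
        = Real.exp (-(4 * Real.log 2) + -(4 * τ / l * Λ)) := by
          rw [Real.exp_add, hq4]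
      _ ≤ _ := Real.exp_le_exp.2 h7

section
variable {W : Type} [Fintype W] [DecidableEq W]

/-- global correlation on the set of vertices with bounded jump rates -/
theorem gcs (c : W → W → ℝ) (m : W → ℝ) (G : W → W → ℝ) (l τ q s1 : ℝ) (M : ℕ) (A : Finset W)
    (hc : ∀ u v, 0 ≤ c u v) (hsym : ∀ u v, c u v = c v u) (hm : ∀ u, 0 < m u)
    (hl : 0 < l) (hLS : LSob c m l) (hτ : 0 < τ) (hτ1 : τ ≤ 1) (hq : 0 < q) (hq1 : q ≤ 1)
    (hs1 : 0 < s1) (hs11 : s1 ≤ 1) (hA : ∀ u ∈ A, s1 * ∑ v, c u v ≤ m u)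
    (hM2 : 2 ≤ M) (hG : PsdM M G) (hG0 : ∀ u, 0 ≤ G u u) (hGs : ∀ u v, G u v = G v u)
    (htr : 0 < trA m A G)
    (hE : (1 / 2) * (∑ u ∈ A, ∑ v ∈ A, c u v * (G u u + G v v - 2 * G u v))
      + ∑ u ∈ A, ∑ v ∈ univ \ A, c u v * G u u ≤ τ * trA m A G)
    (hM : 512 * (2 + 2 * Real.log (1 / q) + 2 * Real.log (1 / q) / (s1 * l)) ^ 2 *
      Real.exp (4 * τ / l * Real.log (1 / q)) ≤ (M : ℝ) - 1) :
    trA m A G ^ 2 / 65536 * (Real.exp (-(8 * τ / l * Real.log (1 / q)))
        * (Fintype.card W : ℝ) ^ (-q))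
      ≤ ∑ u, ∑ v, m u * m v * G u v ^ 2 := by
  obtain ⟨s0, hs0⟩ : ∃ s0 : ℝ, s0 = min s1 (1 / l) := ⟨_, rfl⟩
  obtain ⟨T, hT⟩ : ∃ T : ℕ, T = ⌈2 / (s0 * l) * Real.log (1 / q)⌉₊ + 1 := ⟨_, rfl⟩
  obtain ⟨n0, n1, n2, n3, n4, n5, n6⟩ := numb l τ q s1 s0 T hl hτ hτ1 hq hq1 hs1 hs11 hs0 hT
  have hL : 0 ≤ Real.log (1 / q) := Real.log_nonneg (by rw [le_div_iff₀ hq]; linarith)
  set mt : W → ℝ := fun u => max (m u) (s1 * ∑ v, c u v) with hmt
  set w : W → W → ℝ := fun u v => s0 * c u v with hw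
  have hN : IsNet w mt := by
    refine ⟨fun u v => mul_nonneg n0.le (hc u v), fun u v => ?_, fun u => ?_, fun u => ?_⟩
    · simp only [hw]; rw [hsym u v]
    · exact lt_of_lt_of_le (hm u) (le_max_left _ _)
    · simp only [hw, hmt]
      rw [← mul_sum]
      refine le_trans ?_ (le_max_right _ _)
      exact mul_le_mul_of_nonneg_right n1 (sum_nonneg fun v _ => hc u v)
  have hmA : ∀ u ∈ A, mt u = m u := fun u hu => max_eq_left (hA u hu)
  have htrA : trA mt A G = trA m A G := by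
    unfold trA
    exact sum_congr rfl fun u hu => by rw [hmA u hu]
  set a : ℝ := trA m A G with ha
  have hP : 0 < (M : ℝ) - 1 := by
    have : (2 : ℝ) ≤ M := by exact_mod_cast hM2
    linarith
  set b : ℝ := s0 * τ / 2 with hb
  have hs01 : s0 ≤ 1 := n1.trans hs11
  have hb0 : 0 ≤ b := by positivity
  have hb1 : b < 1 := by
    have : s0 * τ ≤ 1 := by nlinarith
    rw [hb]; linarith
  -- one step
  have h1 : (1 - b) * a ≤ cor w mt A G 1 := by
    have h := cor_one hN A G hG0 (s0 * τ) (by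
      rw [htrA]
      have e1 : ∑ u ∈ A, ∑ v ∈ A, w u v * (G u u + G v v - 2 * G u v) =
          s0 * ∑ u ∈ A, ∑ v ∈ A, c u v * (G u u + G v v - 2 * G u v) := by
        simp only [mul_sum, hw]
        exact sum_congr rfl fun u _ => sum_congr rfl fun v _ => by ring
      have e2 : ∑ u ∈ A, ∑ v ∈ univ \ A, w u v * G u u =
          s0 * ∑ u ∈ A, ∑ v ∈ univ \ A, c u v * G u u := by
        simp only [mul_sum, hw]
        exact sum_congr rfl fun u _ => sum_congr rfl fun v _ => by ring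
      rw [e1, e2]
      have := mul_le_mul_of_nonneg_left hE n0.le
      linarith)
    rw [htrA] at h
    exact h
  -- many steps
  have hX : 0 < Real.exp (4 * τ / l * Real.log (1 / q)) := Real.exp_pos _
  have hXX : Real.exp (4 * τ / l * Real.log (1 / q)) *
      Real.exp (-(4 * τ / l * Real.log (1 / q))) = 1 := by
    rw [← Real.exp_add, add_neg_cancel, Real.exp_zero]
  have hT0 : (0 : ℝ) ≤ T := Nat.cast_nonneg T
  have hMT : 32 * (T : ℝ) ^ 2 ≤ ((M : ℝ) - 1) * (1 - b) ^ (2 * T) := by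
    have h2 : (T : ℝ) ^ 2 ≤
        (2 + 2 * Real.log (1 / q) + 2 * Real.log (1 / q) / (s1 * l)) ^ 2 :=
      pow_le_pow_left₀ hT0 n4 2
    have h3 : 512 * (T : ℝ) ^ 2 * Real.exp (4 * τ / l * Real.log (1 / q)) ≤ (M : ℝ) - 1 := by
      refine le_trans ?_ hM
      exact mul_le_mul_of_nonneg_right (by linarith) hX.le
    calc 32 * (T : ℝ) ^ 2 = (512 * (T : ℝ) ^ 2 * Real.exp (4 * τ / l * Real.log (1 / q))) *
          (1 / 16 * Real.exp (-(4 * τ / l * Real.log (1 / q)))) := by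
          have : (512 * (T : ℝ) ^ 2 * Real.exp (4 * τ / l * Real.log (1 / q))) *
            (1 / 16 * Real.exp (-(4 * τ / l * Real.log (1 / q)))) =
            32 * (T : ℝ) ^ 2 * (Real.exp (4 * τ / l * Real.log (1 / q)) *
              Real.exp (-(4 * τ / l * Real.log (1 / q)))) := by ring
          rw [this, hXX, mul_one]
      _ ≤ ((M : ℝ) - 1) * (1 - b) ^ (2 * T) :=
          mul_le_mul h3 n6 (by positivity) hP.le
  have h2 := seq_lower (cor w mt A G) a b ((M : ℝ) - 1) T htr hb0 hb1 hP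
    ((cor_zero hN A G).trans htrA) h1 (fun i j α β hα hβ => by
      have h := conv hN A G M hM2 hG hG0 hGs i j α β hα hβ
      rw [htrA] at h
      exact h) n3 hMT
  have h3 : a / 128 * Real.exp (-(4 * τ / l * Real.log (1 / q))) ≤ cor w mt A G (T + T) := by
    refine le_trans ?_ h2
    have := mul_le_mul_of_nonneg_left n6 htr.le
    linarith
  -- Cauchy-Schwarz
  have h4 : cor w mt A G (T + T) ^ 2 ≤
      (∑ u ∈ A, ∑ v ∈ A, m u * m v * hk w mt A (T + T) v u ^ 2) *
        ∑ u ∈ A, ∑ v ∈ A, m u * m v * G u v ^ 2 := by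
    have h5 : cor w mt A G (T + T) = ∑ u ∈ A, ∑ v ∈ A, m u * m v * hk w mt A (T + T) v u * G u v := by
      unfold cor
      exact sum_congr rfl fun u hu => sum_congr rfl fun v hv => by rw [hmA u hu, hmA v hv]
    rw [h5]
    have h := Finset.sum_sq_le_sum_mul_sum_of_sq_le_mul (A ×ˢ A)
      (r := fun p => m p.1 * m p.2 * hk w mt A (T + T) p.2 p.1 * G p.1 p.2)
      (f := fun p => m p.1 * m p.2 * hk w mt A (T + T) p.2 p.1 ^ 2)
      (g := fun p => m p.1 * m p.2 * G p.1 p.2 ^ 2)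
      (fun p _ => mul_nonneg (mul_nonneg (hm _).le (hm _).le) (sq_nonneg _))
      (fun p _ => mul_nonneg (mul_nonneg (hm _).le (hm _).le) (sq_nonneg _))
      (fun p _ => le_of_eq (by ring))
    rwa [sum_product, sum_product, sum_product] at h
  have h5 : ∑ u ∈ A, ∑ v ∈ A, m u * m v * hk w mt A (T + T) v u ^ 2 ≤
      4 * (Fintype.card W : ℝ) ^ q := by
    rw [sum_comm]
    set δ : ℝ := (1 - s0 * l / 4) ^ (T + T) with hδ
    have hδ0 : 0 ≤ δ := pow_nonneg (by linarith) _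
    have hδ1 : δ ≤ 1 := n5.trans hq1
    have h6 : ∀ v ∈ A, ∑ u ∈ A, m u * m v * hk w mt A (T + T) v u ^ 2 ≤
        m v * (4 / vol m univ * (vol m univ / m v) ^ δ) := by
      intro v hv
      have e : ∑ u ∈ A, m u * m v * hk w mt A (T + T) v u ^ 2 =
          m v * ip mt (hk w mt A (T + T) v) (hk w mt A (T + T) v) := by
        unfold ip
        rw [mul_sum, ← sum_subset (subset_univ A)]
        · exact sum_congr rfl fun u hu => by rw [hmA u hu]; ring
        · intro u _ hu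
          rw [hk_sup A (T + T) v hv u hu]; ring
      rw [e]
      exact mul_le_mul_of_nonneg_left
        (hk_decay c m mt l s0 A hN hc hm hmA hl n0 n2 hLS v hv (T + T)) (hm v).le
    have hvol : 0 ≤ vol m univ := sum_nonneg fun u _ => (hm u).le
    have h7 : ∑ v ∈ A, m v * (4 / vol m univ * (vol m univ / m v) ^ δ) ≤
        ∑ v, m v * (4 / vol m univ * (vol m univ / m v) ^ δ) :=
      sum_le_sum_of_subset_of_nonneg (subset_univ A) fun v _ _ =>
        mul_nonneg (hm v).le (mul_nonneg (by positivity)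
          (Real.rpow_nonneg (div_nonneg hvol (hm v).le) _))
    refine (sum_le_sum h6).trans (h7.trans ((T_SQ W m δ hm hδ0 hδ1).trans ?_))
    have hne : Nonempty W := by
      by_contra hcon
      rw [not_nonempty_iff] at hcon
      have : a = 0 := by
        rw [ha]
        unfold trA
        exact sum_eq_zero fun u _ => (hcon.false u).elim
      rw [this] at htr
      exact lt_irrefl _ htr
    have hn : (1 : ℝ) ≤ (Fintype.card W : ℝ) := by
      exact_mod_cast Fintype.card_pos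
    exact mul_le_mul_of_nonneg_left (Real.rpow_le_rpow_of_exponent_le hn n5) (by norm_num)
  have hQA : 0 ≤ ∑ u ∈ A, ∑ v ∈ A, m u * m v * G u v ^ 2 := sum_nonneg fun u _ =>
    sum_nonneg fun v _ => mul_nonneg (mul_nonneg (hm u).le (hm v).le) (sq_nonneg _)
  have hQ : ∑ u ∈ A, ∑ v ∈ A, m u * m v * G u v ^ 2 ≤ ∑ u, ∑ v, m u * m v * G u v ^ 2 := by
    refine (sum_le_sum fun u _ => sum_le_sum_of_subset_of_nonneg (subset_univ A) fun v _ _ =>
      mul_nonneg (mul_nonneg (hm u).le (hm v).le) (sq_nonneg _)).trans ?_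
    exact sum_le_sum_of_subset_of_nonneg (subset_univ A) fun u _ _ => sum_nonneg fun v _ =>
      mul_nonneg (mul_nonneg (hm u).le (hm v).le) (sq_nonneg _)
  set Q : ℝ := ∑ u, ∑ v, m u * m v * G u v ^ 2 with hQd
  have hne : Nonempty W := by
    by_contra hcon
    rw [not_nonempty_iff] at hcon
    have : a = 0 := by
      rw [ha]
      unfold trA
      exact sum_eq_zero fun u _ => (hcon.false u).elim
    rw [this] at htr
    exact lt_irrefl _ htr
  have hn0 : (0 : ℝ) < (Fintype.card W : ℝ) := by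
    exact_mod_cast Fintype.card_pos
  have hp : 0 < (Fintype.card W : ℝ) ^ q := Real.rpow_pos_of_pos hn0 _
  have h6 : (a / 128 * Real.exp (-(4 * τ / l * Real.log (1 / q)))) ^ 2 ≤
      4 * (Fintype.card W : ℝ) ^ q * Q := by
    have h7 : (a / 128 * Real.exp (-(4 * τ / l * Real.log (1 / q)))) ^ 2 ≤
        cor w mt A G (T + T) ^ 2 := pow_le_pow_left₀ (by positivity) h3 2
    refine h7.trans (h4.trans ?_)
    exact mul_le_mul h5 hQ hQA (by positivity)
  have h7 : (Real.exp (-(4 * τ / l * Real.log (1 / q)))) ^ 2 =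
      Real.exp (-(8 * τ / l * Real.log (1 / q))) := by
    rw [← Real.exp_nat_mul]
    congr 1
    push_cast
    ring
  rw [mul_pow, h7] at h6
  have hpn : (Fintype.card W : ℝ) ^ (-q) * (Fintype.card W : ℝ) ^ q = 1 := by
    rw [← Real.rpow_add hn0, neg_add_cancel, Real.rpow_zero]
  refine le_of_mul_le_mul_right ?_ hp
  calc a ^ 2 / 65536 * (Real.exp (-(8 * τ / l * Real.log (1 / q))) *
        (Fintype.card W : ℝ) ^ (-q)) * (Fintype.card W : ℝ) ^ q
      = a ^ 2 / 65536 * Real.exp (-(8 * τ / l * Real.log (1 / q))) *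
        ((Fintype.card W : ℝ) ^ (-q) * (Fintype.card W : ℝ) ^ q) := by ring
    _ = ((a / 128) ^ 2 * Real.exp (-(8 * τ / l * Real.log (1 / q)))) / 4 := by
        rw [hpn]; ring
    _ ≤ (4 * (Fintype.card W : ℝ) ^ q * Q) / 4 := by linarith
    _ = Q * (Fintype.card W : ℝ) ^ q := by ring

/-- the vertices with large jump rates -/
theorem bad (w : W → W → ℝ) (d f : W → ℝ) (s1 : ℝ) (hw : ∀ u v, 0 ≤ w u v)
    (hsym : ∀ u v, w u v = w v u) (hd : ∀ u, 0 < d u) (hdeg : ∀ u, ∑ v, w u v ≤ d u)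
    (hf : ∀ u, 0 < f u) (hs1 : 0 < s1) (B : Finset W)
    (hB : ∀ u ∈ B, d u * f u ^ 2 < s1 * ∑ v, cf w f u v) :
    ∑ u ∈ B, ∑ v, cf w f u v ≤ s1 * ∑ v, d v * f v ^ 2 := by
  have h1 : ∀ u, ∑ v, cf w f u v = f u * ∑ v, w u v * f v := by
    intro u
    unfold cf
    rw [mul_sum]
    exact sum_congr rfl fun v _ => by ring
  have h2 : ∀ u ∈ B, ∑ v, cf w f u v ≤ s1 * ∑ v, w u v * f v ^ 2 := by
    intro u hu
    have h3 := hB u hu
    rw [h1] at h3 ⊢
    set S : ℝ := ∑ v, w u v * f v with hS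
    have hS0 : 0 ≤ S := sum_nonneg fun v _ => mul_nonneg (hw u v) (hf v).le
    have h4 : d u * f u ≤ s1 * S := by
      have : f u * (d u * f u) < f u * (s1 * S) := by
        calc f u * (d u * f u) = d u * f u ^ 2 := by ring
          _ < s1 * (f u * S) := h3
          _ = f u * (s1 * S) := by ring
      exact (lt_of_mul_lt_mul_left this (hf u).le).le
    have h5 : S ^ 2 ≤ d u * ∑ v, w u v * f v ^ 2 := by
      have h6 : S ^ 2 ≤ (∑ v, w u v) * ∑ v, w u v * f v ^ 2 :=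
        Finset.sum_sq_le_sum_mul_sum_of_sq_eq_mul _ (fun v _ => hw u v)
          (fun v _ => mul_nonneg (hw u v) (sq_nonneg _)) (fun v _ => by ring)
      refine h6.trans (mul_le_mul_of_nonneg_right (hdeg u) ?_)
      exact sum_nonneg fun v _ => mul_nonneg (hw u v) (sq_nonneg _)
    have h6 : d u * (f u * S) ≤ d u * (s1 * ∑ v, w u v * f v ^ 2) := by
      calc d u * (f u * S) = (d u * f u) * S := by ring
        _ ≤ s1 * S * S := mul_le_mul_of_nonneg_right h4 hS0
        _ = s1 * S ^ 2 := by ring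
        _ ≤ s1 * (d u * ∑ v, w u v * f v ^ 2) := mul_le_mul_of_nonneg_left h5 hs1.le
        _ = _ := by ring
    exact le_of_mul_le_mul_left h6 (hd u)
  refine (sum_le_sum h2).trans ?_
  rw [← mul_sum]
  refine mul_le_mul_of_nonneg_left ?_ hs1.le
  calc ∑ u ∈ B, ∑ v, w u v * f v ^ 2 ≤ ∑ u, ∑ v, w u v * f v ^ 2 :=
        sum_le_sum_of_subset_of_nonneg (subset_univ B) fun u _ _ =>
          sum_nonneg fun v _ => mul_nonneg (hw u v) (sq_nonneg _)
    _ = ∑ v, (∑ u, w v u) * f v ^ 2 := by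
        rw [sum_comm]
        refine sum_congr rfl fun v _ => ?_
        rw [sum_mul]
        exact sum_congr rfl fun u _ => by rw [hsym u v]
    _ ≤ ∑ v, d v * f v ^ 2 :=
        sum_le_sum fun v _ => mul_le_mul_of_nonneg_right (hdeg v) (sq_nonneg _)

/-- global correlation of a kernel of small energy -/
theorem gcs2 (w : W → W → ℝ) (d f : W → ℝ) (G : W → W → ℝ) (l c0 ε' q : ℝ) (M : ℕ)
    (hw : ∀ u v, 0 ≤ w u v) (hsym : ∀ u v, w u v = w v u) (hd : ∀ u, 0 < d u)
    (hdeg : ∀ u, ∑ v, w u v ≤ d u) (hf : ∀ u, 0 < f u) (hl : 0 < l)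
    (hLS : LSob (cf w f) (fun v => d v * f v ^ 2) l) (hc0 : 0 < c0) (hc1 : c0 ≤ 1)
    (hε : 0 < ε') (hτ : 768 * ε' / c0 ≤ 1) (hq : 0 < q) (hq1 : q ≤ 1)
    (hM2 : 2 ≤ M) (hG : PsdM M G) (hG0 : ∀ u, 0 ≤ G u u) (hG1 : ∀ u, G u u ≤ 1)
    (hGs : ∀ u v, G u v = G v u) (hvol : 0 < ∑ v, d v * f v ^ 2)
    (hT : c0 * (∑ v, d v * f v ^ 2) / 8 ≤ ∑ u, d u * f u ^ 2 * G u u)
    (hE : (1 / 2) * (∑ u, ∑ v, cf w f u v * (G u u + G v v - 2 * G u v))
      ≤ 24 * (ε' * ∑ v, d v * f v ^ 2))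
    (hM : 512 * (2 + 2 * Real.log (1 / q) + 2 * Real.log (1 / q) / (24 * ε' * l)) ^ 2 *
      Real.exp (4 * (768 * ε' / c0) / l * Real.log (1 / q)) ≤ (M : ℝ) - 1) :
    (c0 * ∑ v, d v * f v ^ 2) ^ 2 / 16777216 *
        (Real.exp (-(8 * (768 * ε' / c0) / l * Real.log (1 / q)))
        * (Fintype.card W : ℝ) ^ (-q))
      ≤ ∑ u, ∑ v, (d u * f u ^ 2) * (d v * f v ^ 2) * G u v ^ 2 := by
  set vl : ℝ := ∑ v, d v * f v ^ 2 with hvl
  set m : W → ℝ := fun v => d v * f v ^ 2 with hm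
  have hm0 : ∀ u, 0 < m u := fun u => mul_pos (hd u) (pow_pos (hf u) 2)
  set s1 : ℝ := 24 * ε' with hs1
  have hε1 : 768 * ε' ≤ c0 := by rwa [div_le_one hc0] at hτ
  have hs10 : 0 < s1 := by positivity
  have hs11 : s1 ≤ 1 := by rw [hs1]; linarith
  set A : Finset W := univ.filter (fun u => s1 * ∑ v, cf w f u v ≤ m u) with hA
  have hAm : ∀ u ∈ A, s1 * ∑ v, cf w f u v ≤ m u := fun u hu => (mem_filter.1 hu).2
  have hBm : ∀ u ∈ univ \ A, m u < s1 * ∑ v, cf w f u v := by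
    intro u hu
    rw [mem_sdiff] at hu
    by_contra hcon
    push Not at hcon
    exact hu.2 (mem_filter.2 ⟨mem_univ u, hcon⟩)
  have hbad := bad w d f s1 hw hsym hd hdeg hf hs10 (univ \ A) hBm
  rw [← hvl] at hbad
  have hcf0 : ∀ u v, 0 ≤ cf w f u v := fun u v =>
    mul_nonneg (hw u v) (mul_nonneg (hf u).le (hf v).le)
  have hcfs : ∀ u v, cf w f u v = cf w f v u := fun u v => by
    unfold cf; rw [hsym u v, mul_comm (f u)]
  have hD : ∀ u v, 0 ≤ G u u + G v v - 2 * G u v := by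
    intro u v
    have h := samp G M hM2 hG (fun x => (if x = u then 1 else 0) - if x = v then 1 else 0)
    -- direct: use the samples `u, v`
    have h0 := hG (fun i => if i.val = 0 then u else v)
      (fun i => if i.val = 0 then 1 else if i.val = 1 then -1 else 0)
    have e : ∑ i : Fin M, ∑ j : Fin M,
        (if i.val = 0 then (1 : ℝ) else if i.val = 1 then -1 else 0) *
        (if j.val = 0 then 1 else if j.val = 1 then -1 else 0) *
        G (if i.val = 0 then u else v) (if j.val = 0 then u else v) =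
        G u u + G v v - 2 * G u v := by
      obtain ⟨n, rfl⟩ : ∃ n, M = n + 2 := ⟨M - 2, by omega⟩
      simp only [Fin.sum_univ_succ, Fin.val_zero, Fin.val_succ, if_true]
      simp
      rw [hGs v u]
      ring
    rw [e] at h0
    exact h0
  -- the trace
  have htr : c0 * vl / 16 ≤ trA m A G := by
    have h1 : ∑ u, m u * G u u = trA m A G + ∑ u ∈ univ \ A, m u * G u u := by
      unfold trA
      rw [add_comm, sum_sdiff (subset_univ A)]
    have h2 : ∑ u ∈ univ \ A, m u * G u u ≤ s1 * (s1 * vl) := by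
      calc ∑ u ∈ univ \ A, m u * G u u ≤ ∑ u ∈ univ \ A, s1 * ∑ v, cf w f u v :=
            sum_le_sum fun u hu => by
              have h3 := hBm u hu
              have h4 := mul_le_mul_of_nonneg_left (hG1 u) (hm0 u).le
              linarith
        _ = s1 * ∑ u ∈ univ \ A, ∑ v, cf w f u v := by rw [mul_sum]
        _ ≤ s1 * (s1 * vl) := mul_le_mul_of_nonneg_left hbad hs10.le
    have h3 : s1 * (s1 * vl) ≤ c0 * vl / 16 := by
      have h4 : s1 * s1 ≤ c0 / 16 := by
        rw [hs1]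
        nlinarith
      calc s1 * (s1 * vl) = (s1 * s1) * vl := by ring
        _ ≤ c0 / 16 * vl := mul_le_mul_of_nonneg_right h4 hvol.le
        _ = _ := by ring
    have h5 : c0 * vl / 8 ≤ ∑ u, m u * G u u := hT
    rw [h1] at h5
    linarith
  have htr0 : 0 < trA m A G := lt_of_lt_of_le (by positivity) htr
  have hτ0 : 0 < 768 * ε' / c0 := by positivity
  have hEn : (1 / 2) * (∑ u ∈ A, ∑ v ∈ A, cf w f u v * (G u u + G v v - 2 * G u v))
      + ∑ u ∈ A, ∑ v ∈ univ \ A, cf w f u v * G u u ≤ (768 * ε' / c0) * trA m A G := by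
    have h1 : ∑ u ∈ A, ∑ v ∈ A, cf w f u v * (G u u + G v v - 2 * G u v) ≤
        ∑ u, ∑ v, cf w f u v * (G u u + G v v - 2 * G u v) := by
      refine (sum_le_sum fun u _ => sum_le_sum_of_subset_of_nonneg (subset_univ A) fun v _ _ =>
        mul_nonneg (hcf0 u v) (hD u v)).trans ?_
      exact sum_le_sum_of_subset_of_nonneg (subset_univ A) fun u _ _ => sum_nonneg fun v _ =>
        mul_nonneg (hcf0 u v) (hD u v)
    have h2 : ∑ u ∈ A, ∑ v ∈ univ \ A, cf w f u v * G u u ≤ s1 * vl := by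
      refine le_trans ?_ hbad
      rw [sum_comm]
      refine sum_le_sum fun v _ => ?_
      calc ∑ u ∈ A, cf w f u v * G u u ≤ ∑ u ∈ A, cf w f v u := sum_le_sum fun u _ => by
            rw [hcfs v u]
            exact mul_le_of_le_one_right (hcf0 u v) (hG1 u)
        _ ≤ ∑ u, cf w f v u := sum_le_sum_of_subset_of_nonneg (subset_univ A) fun u _ _ =>
            hcf0 v u
    have h3 : (768 * ε' / c0) * (c0 * vl / 16) ≤ (768 * ε' / c0) * trA m A G :=
      mul_le_mul_of_nonneg_left htr hτ0.le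
    have h4 : (768 * ε' / c0) * (c0 * vl / 16) = 48 * (ε' * vl) := by
      field_simp
      ring
    rw [h4] at h3
    have h5 : s1 * vl = 24 * (ε' * vl) := by rw [hs1]; ring
    rw [h5] at h2
    linarith
  have hmain := gcs (cf w f) m G l (768 * ε' / c0) q s1 M A hcf0 hcfs hm0 hl hLS hτ0 hτ hq hq1
    hs10 hs11 hAm hM2 hG hG0 hGs htr0 hEn hM
  refine le_trans ?_ hmain
  have hX0 : 0 ≤ Real.exp (-(8 * (768 * ε' / c0) / l * Real.log (1 / q)))
        * (Fintype.card W : ℝ) ^ (-q) := by positivity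
  refine mul_le_mul_of_nonneg_right ?_ hX0
  have h1 : (c0 * vl / 16) ^ 2 ≤ trA m A G ^ 2 := pow_le_pow_left₀ (by positivity) htr 2
  calc (c0 * vl) ^ 2 / 16777216 = (c0 * vl / 16) ^ 2 / 65536 := by ring
    _ ≤ trA m A G ^ 2 / 65536 := by linarith

end

end Run7.h881.SA
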