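import Pool.Agent.Run7.h881.SA.Cond

/-!
The soft cut by variance and the rounding of the part of small variance.
-/

set_option autoImplicit false
set_option linter.unusedSectionVars false

namespace Run7.h881.SA

open Finset Pool.Agent.H647R3.UG Pool.Agent.H573R3.SL
open Pool.Agent.TH522.UG (Ach ach_leaf ach_cut phi phi_nonneg phi_le_one vr_lt phi_lip)

section
variable {V A : Type} [Fintype V] [DecidableEq V] [Fintype A] [DecidableEq A] {M : ℕ}

theorem pr_le_one {L : ((V → A) → ℝ) →ₗ[ℝ] ℝ} (hL : FctS M L) (v : V) (a : A) :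
    pr L v a ≤ 1 := by
  rw [← (hL.law v v).one]
  exact single_le_sum (fun a _ => hL.nn v a) (mem_univ a)

theorem pr2_le_left {L : ((V → A) → ℝ) →ₗ[ℝ] ℝ} (hL : FctS M L) (u v : V) (a b : A) :
    pr2 L u v a b ≤ pr L u a := by
  rw [← (hL.law u v).left a]
  exact single_le_sum (fun b _ => (hL.law u v).nonneg a b) (mem_univ b)

theorem pr2_le_right {L : ((V → A) → ℝ) →ₗ[ℝ] ℝ} (hL : FctS M L) (u v : V) (a b : A) :
    pr2 L u v a b ≤ pr L v b := by
  rw [← (hL.law u v).right b]
  exact single_le_sum (f := fun a => pr2 L u v a b) (fun a _ => (hL.law u v).nonneg a b)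
    (mem_univ a)

/-- the variance is Lipschitz along an edge -/
theorem vr_lip {L : ((V → A) → ℝ) →ₗ[ℝ] ℝ} (hL : FctS M L) (u v : V) (π : Equiv.Perm A) :
    |vr L u - vr L v| ≤ 2 * (1 - L (sat u v π)) := by
  have e1 : ∑ b, pr L v b ^ 2 = ∑ a, pr L v (π a) ^ 2 := (Equiv.sum_comp π _).symm
  have e2 : ∑ a, pr L v (π a) = 1 := by
    rw [Equiv.sum_comp π (fun b => pr L v b)]
    exact (hL.law v v).one
  have e3 : ∑ a, pr L u a = 1 := (hL.law u u).one
  have key : ∀ x y z : ℝ, 0 ≤ z → z ≤ x → z ≤ y → x ≤ 1 → x ^ 2 - y ^ 2 ≤ 2 * (x - z) := by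
    intro x y z h0 h1 h2 h3
    nlinarith [mul_nonneg (sub_nonneg.2 h1) (by linarith : (0:ℝ) ≤ 2 - x - z)]
  unfold vr
  rw [hL.sat, e1, abs_le]
  constructor
  · have h1 : ∑ a, (pr L u a ^ 2 - pr L v (π a) ^ 2) ≤
        ∑ a, 2 * (pr L u a - pr2 L u v a (π a)) :=
      sum_le_sum fun a _ => key _ _ _ ((hL.law u v).nonneg a (π a)) (pr2_le_left hL u v a (π a))
        (pr2_le_right hL u v a (π a)) (pr_le_one hL u a)
    rw [sum_sub_distrib, ← mul_sum, sum_sub_distrib, e3] at h1
    linarith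
  · have h1 : ∑ a, (pr L v (π a) ^ 2 - pr L u a ^ 2) ≤
        ∑ a, 2 * (pr L v (π a) - pr2 L u v a (π a)) :=
      sum_le_sum fun a _ => key _ _ _ ((hL.law u v).nonneg a (π a)) (pr2_le_right hL u v a (π a))
        (pr2_le_left hL u v a (π a)) (pr_le_one hL v (π a))
    rw [sum_sub_distrib, ← mul_sum, sum_sub_distrib, e2] at h1
    linarith

/-- a labelling by the most likely labels -/
theorem exists_argmax {L : ((V → A) → ℝ) →ₗ[ℝ] ℝ} (hL : FctS M L) :
    ∃ x : V → A, ∀ v, 1 - vr L v ≤ pr L v (x v) := by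
  have h : ∀ v, ∃ a, 1 - vr L v ≤ pr L v a := by
    intro v
    have hone : ∑ a, pr L v a = 1 := (hL.law v v).one
    by_contra hcon
    push Not at hcon
    have h1 : ∑ a, pr L v a ^ 2 < 1 - vr L v := by
      obtain ⟨a0, -, ha0⟩ : ∃ a ∈ (univ : Finset A), 0 < pr L v a := by
        apply exists_lt_of_sum_lt (f := fun _ => (0 : ℝ))
        rw [sum_const_zero, hone]
        exact one_pos
      calc ∑ a, pr L v a ^ 2 < ∑ a, pr L v a * (1 - vr L v) := by
            apply sum_lt_sum
            · intro a _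
              rw [sq]
              exact mul_le_mul_of_nonneg_left (hcon a).le (hL.nn v a)
            · refine ⟨a0, mem_univ _, ?_⟩
              rw [sq]
              exact mul_lt_mul_of_pos_left (hcon a0) ha0
        _ = 1 - vr L v := by rw [← sum_mul, hone, one_mul]
    unfold vr at h1
    linarith
  choose x hx using h
  exact ⟨x, hx⟩

/-- the most likely labels satisfy the edges of small error -/
theorem argmax_edge {L : ((V → A) → ℝ) →ₗ[ℝ] ℝ} (hL : FctS M L) (x : V → A)
    (hx : ∀ v, 1 - vr L v ≤ pr L v (x v)) (u v : V) (π : Equiv.Perm A) (hu : vr L u < 1 / 4)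
    (hv : vr L v < 1 / 4) (hne : π (x u) ≠ x v) : 1 ≤ 2 * (1 - L (sat u v π)) := by
  have h1 := hx u
  have h2 := hx v
  rw [hL.sat, ← add_sum_erase univ _ (mem_univ (x u))]
  have h3 : pr2 L u v (x u) (π (x u)) ≤ 1 - pr L v (x v) := by
    have h4 := pr2_le_right hL u v (x u) (π (x u))
    have h5 : pr L v (π (x u)) + pr L v (x v) ≤ 1 := by
      rw [← (hL.law v v).one, ← sum_pair hne]
      exact sum_le_sum_of_subset_of_nonneg (subset_univ _) fun a _ _ => hL.nn v a
    linarith
  have h4 : ∑ a ∈ univ.erase (x u), pr2 L u v a (π a) ≤ 1 - pr L u (x u) := by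
    have h5 : ∑ a ∈ univ.erase (x u), pr2 L u v a (π a) ≤ ∑ a ∈ univ.erase (x u), pr L u a :=
      sum_le_sum fun a _ => pr2_le_left hL u v a (π a)
    have h6 := add_sum_erase univ (pr L u) (mem_univ (x u))
    rw [(hL.law u u).one] at h6
    linarith
  linarith

theorem phi_le {L : ((V → A) → ℝ) →ₗ[ℝ] ℝ} (hL : FctS M L) (v : V) : phi L v ≤ 4 * vr L v := by
  have h0 := (vr_bounds hL v).1
  unfold phi
  refine max_le (by linarith) ?_
  rcases le_total (1 / 4) (vr L v) with h | h
  · exact (min_le_left _ _).trans (by linarith)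
  · exact (min_le_right _ _).trans (by linarith)

variable {E : Type} [Fintype E] {s t : E → V} {π : E → Equiv.Perm A}

/-- rounding of a part: the soft cut -/
theorem ach_part {L : ((V → A) → ℝ) →ₗ[ℝ] ℝ} (hL : FctS M L) (f : V → ℝ) (hf : ∀ v, 0 ≤ f v)
    (x : ℝ) (hx : Ach s t π (fun v => f v ^ 2 * phi L v) x) :
    Ach s t π (fun v => f v ^ 2) (18 * ErrL s t π f L + x) := by
  obtain ⟨lab, hlab⟩ := exists_argmax hL
  have hP1 : ∀ v, 0 ≤ f v ^ 2 * (1 - phi L v) := fun v =>
    mul_nonneg (sq_nonneg _) (by linarith [phi_le_one L v])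
  have hleaf := ach_leaf (s := s) (t := t) (π := π) (fun v => f v ^ 2 * (1 - phi L v)) hP1 lab
  have hcut := ach_cut (fun v => f v ^ 2) (phi L) (fun v => sq_nonneg _) (phi_nonneg L)
    (phi_le_one L) x _ hx hleaf
  refine hcut.mono ?_
  have hmin : ∀ e, min (f (s e) ^ 2) (f (t e) ^ 2) ≤ f (s e) * f (t e) := by
    intro e
    rcases le_total (f (s e)) (f (t e)) with h | h
    · exact (min_le_left _ _).trans (by nlinarith [hf (s e)])
    · exact (min_le_right _ _).trans (by nlinarith [hf (t e)])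
  have herr : ∀ e, 0 ≤ 1 - L (sat (s e) (t e) (π e)) := fun e => by
    linarith [hL.sat1 (s e) (t e) (π e)]
  have h1 : ∑ e, min (f (s e) ^ 2) (f (t e) ^ 2) * |phi L (s e) - phi L (t e)| ≤
      16 * ErrL s t π f L := by
    unfold ErrL
    rw [mul_sum]
    refine sum_le_sum fun e _ => ?_
    have h2 : |phi L (s e) - phi L (t e)| ≤ 16 * (1 - L (sat (s e) (t e) (π e))) := by
      have := vr_lip hL (s e) (t e) (π e)
      linarith [phi_lip L (s e) (t e)]
    calc min (f (s e) ^ 2) (f (t e) ^ 2) * |phi L (s e) - phi L (t e)|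
        ≤ (f (s e) * f (t e)) * (16 * (1 - L (sat (s e) (t e) (π e)))) :=
          mul_le_mul (hmin e) h2 (abs_nonneg _) (mul_nonneg (hf _) (hf _))
      _ = _ := by ring
  have h2 : ∑ e, min (f (s e) ^ 2 * (1 - phi L (s e))) (f (t e) ^ 2 * (1 - phi L (t e))) *
      (if π e (lab (s e)) = lab (t e) then 0 else 1) ≤ 2 * ErrL s t π f L := by
    unfold ErrL
    rw [mul_sum]
    refine sum_le_sum fun e _ => ?_
    have h3 : min (f (s e) ^ 2 * (1 - phi L (s e))) (f (t e) ^ 2 * (1 - phi L (t e))) ≤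
        f (s e) * f (t e) := by
      refine le_trans (min_le_min ?_ ?_) (hmin e)
      · exact mul_le_of_le_one_right (sq_nonneg _) (by linarith [phi_nonneg L (s e)])
      · exact mul_le_of_le_one_right (sq_nonneg _) (by linarith [phi_nonneg L (t e)])
    have hr : 0 ≤ f (s e) * f (t e) * (1 - L (sat (s e) (t e) (π e))) :=
      mul_nonneg (mul_nonneg (hf _) (hf _)) (herr e)
    split_ifs with h4
    · rw [mul_zero]; linarith
    · rw [mul_one]
      by_cases h5 : phi L (s e) < 1 ∧ phi L (t e) < 1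
      · have h6 := argmax_edge hL lab hlab (s e) (t e) (π e) (vr_lt L _ h5.1) (vr_lt L _ h5.2) h4
        calc min (f (s e) ^ 2 * (1 - phi L (s e))) (f (t e) ^ 2 * (1 - phi L (t e)))
            ≤ (f (s e) * f (t e)) * 1 := by rw [mul_one]; exact h3
          _ ≤ (f (s e) * f (t e)) * (2 * (1 - L (sat (s e) (t e) (π e)))) :=
              mul_le_mul_of_nonneg_left h6 (mul_nonneg (hf _) (hf _))
          _ = _ := by ring
      · have h6 : min (f (s e) ^ 2 * (1 - phi L (s e))) (f (t e) ^ 2 * (1 - phi L (t e))) ≤ 0 := by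
          rw [not_and_or, not_lt, not_lt] at h5
          rcases h5 with h5 | h5
          · refine (min_le_left _ _).trans ?_
            have : phi L (s e) = 1 := le_antisymm (phi_le_one L _) h5
            rw [this]; simp
          · refine (min_le_right _ _).trans ?_
            have : phi L (t e) = 1 := le_antisymm (phi_le_one L _) h5
            rw [this]; simp
        linarith
  linarith

end

end Run7.h881.SA
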