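import Pool.Agent.Run7.h881.SA.Samp
import Pool.Agent.H573R3.SL.All

/-!
The lazy walk killed outside of a set `A`: basic facts and the decay of its heat kernel.
-/

set_option autoImplicit false
set_option linter.unusedSectionVars false

namespace Run7.h881.SA

open Finset Pool.Agent.H647R3.UG Pool.Agent.H573R3.SL

section
variable {W : Type} [Fintype W] [DecidableEq W]

/-- the killed lazy step -/
noncomputable def kl (w : W → W → ℝ) (m : W → ℝ) (A : Finset W) (f : W → ℝ) : W → ℝ :=
  fun u => if u ∈ A then lz w m f u else 0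

/-- `f` vanishes outside of `A` -/
def Sup (A : Finset W) (f : W → ℝ) : Prop := ∀ u, u ∉ A → f u = 0

theorem kl_sup (w : W → W → ℝ) (m : W → ℝ) (A : Finset W) (f : W → ℝ) : Sup A (kl w m A f) :=
  fun u hu => by unfold kl; rw [if_neg hu]

theorem ip_kl (w : W → W → ℝ) (m : W → ℝ) (A : Finset W) (f g : W → ℝ) (hg : Sup A g) :
    ip m (kl w m A f) g = ip m (lz w m f) g := by
  unfold ip
  refine sum_congr rfl fun u _ => ?_
  by_cases hu : u ∈ A
  · unfold kl; rw [if_pos hu]
  · rw [hg u hu]; ring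

theorem ip_kl' (w : W → W → ℝ) (m : W → ℝ) (A : Finset W) (f g : W → ℝ) (hg : Sup A g) :
    ip m g (kl w m A f) = ip m g (lz w m f) := by
  unfold ip
  refine sum_congr rfl fun u _ => ?_
  by_cases hu : u ∈ A
  · unfold kl; rw [if_pos hu]
  · rw [hg u hu]; ring

variable {w : W → W → ℝ} {m : W → ℝ} (hN : IsNet w m) (A : Finset W)
include hN

theorem kl_nonneg (f : W → ℝ) (hf : ∀ u, 0 ≤ f u) (u : W) : 0 ≤ kl w m A f u := by
  unfold kl
  split_ifs
  · exact (T_OP W w m hN).2.2.1 f hf u
  · exact le_rfl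

theorem kl_sym (f g : W → ℝ) (hf : Sup A f) (hg : Sup A g) :
    ip m (kl w m A f) g = ip m f (kl w m A g) := by
  rw [ip_kl w m A f g hg, ip_kl' w m A g f hf]
  exact (T_OP W w m hN).1 f g

theorem kl_sum (f : W → ℝ) (hf : ∀ u, 0 ≤ f u) : ∑ u, m u * kl w m A f u ≤ ∑ u, m u * f u := by
  rw [← (T_OP W w m hN).2.1 f]
  refine sum_le_sum fun u _ => mul_le_mul_of_nonneg_left ?_ (hN.pos u).le
  unfold kl
  split_ifs
  · exact le_rfl
  · exact (T_OP W w m hN).2.2.1 f hf u

theorem kl_en (f : W → ℝ) (hf : Sup A f) : ip m f (kl w m A f) = ip m f f - en w f / 2 := by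
  rw [ip_kl' w m A f f hf]
  exact (T_OP W w m hN).2.2.2.1 f

theorem kl_sq (f : W → ℝ) :
    ip m (kl w m A f) (kl w m A f) ≤ ip m f f - en w f / 2 := by
  rw [← (T_OP W w m hN).2.2.2.1 f]
  refine le_trans ?_ ((T_OP W w m hN).2.2.2.2.1 f)
  unfold ip
  refine sum_le_sum fun u _ => ?_
  unfold kl
  split_ifs
  · exact le_rfl
  · have h := (hN.pos u).le
    simp only [mul_zero]
    rw [mul_assoc]
    exact mul_nonneg h (mul_self_nonneg _)

theorem lz_half (f : W → ℝ) (hf : ∀ u, 0 ≤ f u) (u : W) : f u / 2 ≤ lz w m f u := by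
  have h := hN.pos u
  unfold lz
  have h1 : ∑ v, w u v * (f u - f v) ≤ m u * f u := by
    calc ∑ v, w u v * (f u - f v) ≤ ∑ v, w u v * f u :=
          sum_le_sum fun v _ => mul_le_mul_of_nonneg_left (by linarith [hf v]) (hN.nonneg u v)
      _ = (∑ v, w u v) * f u := by rw [sum_mul]
      _ ≤ m u * f u := mul_le_mul_of_nonneg_right (hN.deg u) (hf u)
  have h2 : (∑ v, w u v * (f u - f v)) / (2 * m u) ≤ f u / 2 := by
    rw [div_le_div_iff₀ (by positivity) (by norm_num)]
    nlinarith
  linarith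

/-- the killed heat kernel -/
noncomputable def hk (w : W → W → ℝ) (m : W → ℝ) (A : Finset W) (s : ℕ) (v : W) : W → ℝ :=
  (kl w m A)^[s] (dl m v)

omit hN in
theorem hk_zero (v : W) : hk w m A 0 v = dl m v := rfl

omit hN in
theorem hk_succ (s : ℕ) (v : W) : hk w m A (s + 1) v = kl w m A (hk w m A s v) :=
  Function.iterate_succ_apply' _ _ _

omit hN in
theorem dl_sup (v : W) (hv : v ∈ A) : Sup A (dl m v) := by
  intro u hu
  unfold dl
  rw [if_neg]
  intro h
  exact hu (h ▸ hv)

omit hN in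
theorem hk_sup (s : ℕ) (v : W) (hv : v ∈ A) : Sup A (hk w m A s v) := by
  cases s with
  | zero => exact dl_sup A v hv
  | succ s => rw [hk_succ]; exact kl_sup w m A _

theorem hk_nonneg (s : ℕ) (v : W) (u : W) : 0 ≤ hk w m A s v u := by
  induction s generalizing u with
  | zero =>
    rw [hk_zero]
    unfold dl
    split_ifs
    · exact (div_pos one_pos (hN.pos v)).le
    · exact le_rfl
  | succ s ih => rw [hk_succ]; exact kl_nonneg hN A _ ih u

theorem hk_sum (s : ℕ) (v : W) : ∑ u, m u * hk w m A s v u ≤ 1 := by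
  induction s with
  | zero =>
    rw [hk_zero]
    unfold dl
    rw [sum_eq_single v]
    · rw [if_pos rfl, mul_one_div, div_self (hN.pos v).ne']
    · intro u _ hu; rw [if_neg hu, mul_zero]
    · intro h; exact absurd (mem_univ v) h
  | succ s ih =>
    rw [hk_succ]
    exact (kl_sum hN A _ (hk_nonneg hN A s v)).trans ih

theorem hk_pos (s : ℕ) (v : W) (hv : v ∈ A) : 0 < hk w m A s v v := by
  induction s with
  | zero =>
    rw [hk_zero]
    unfold dl
    rw [if_pos rfl]
    exact div_pos one_pos (hN.pos v)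
  | succ s ih =>
    rw [hk_succ]
    unfold kl
    rw [if_pos hv]
    have := lz_half hN _ (hk_nonneg hN A s v) v
    linarith

theorem kl_iter_sym (s : ℕ) (f g : W → ℝ) (hf : Sup A f) (hg : Sup A g) :
    ip m ((kl w m A)^[s] f) g = ip m f ((kl w m A)^[s] g) := by
  induction s generalizing f g with
  | zero => rfl
  | succ s ih =>
    rw [Function.iterate_succ_apply, ih _ _ (kl_sup w m A f) hg, Function.iterate_succ_apply',
      kl_sym hN A f _ hf]
    cases s with
    | zero => exact hg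
    | succ s => rw [Function.iterate_succ_apply']; exact kl_sup w m A _

omit hN in
theorem ip_dl (hm : ∀ u, 0 < m u) (v : W) (f : W → ℝ) : ip m (dl m v) f = f v := by
  unfold ip dl
  rw [sum_eq_single v]
  · rw [if_pos rfl]
    have := (hm v).ne'
    field_simp
  · intro u _ hu; rw [if_neg hu]; ring
  · intro h; exact absurd (mem_univ v) h

omit hN in
theorem ip_comm' (f g : W → ℝ) : ip m f g = ip m g f := by
  unfold ip
  exact sum_congr rfl fun u _ => by ring

theorem hk_symm (s : ℕ) (u v : W) (hu : u ∈ A) (hv : v ∈ A) :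
    hk w m A s v u = hk w m A s u v := by
  rw [← ip_dl hN.pos u (hk w m A s v), ← ip_dl hN.pos v (hk w m A s u)]
  unfold hk
  rw [← kl_iter_sym hN A s _ _ (dl_sup A u hu) (dl_sup A v hv), ip_comm']

/-- the semigroup property -/
theorem hk_mul (i j : ℕ) (u v : W) (hu : u ∈ A) (hv : v ∈ A) :
    ∑ x, m x * hk w m A i u x * hk w m A j v x = hk w m A (i + j) v u := by
  change ip m (hk w m A i u) (hk w m A j v) = _
  rw [← ip_dl hN.pos u (hk w m A (i + j) v)]
  unfold hk
  have h1 : Sup A ((kl w m A)^[j] (dl m v)) := hk_sup A j v hv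
  rw [kl_iter_sym hN A i _ _ (dl_sup A u hu) h1, ← Function.iterate_add_apply]

end

section
variable {W : Type} [Fintype W] [DecidableEq W]

/-- Faber-Krahn for functions of total mass at most one -/
theorem fkl' (c : W → W → ℝ) (m f : W → ℝ) (l : ℝ) (hc : ∀ u v, 0 ≤ c u v) (hm : ∀ u, 0 < m u)
    (hl : 0 ≤ l) (hls : LSob c m l) (hf : ∀ u, 0 ≤ f u) (h0 : 0 < ∑ u, m u * f u)
    (h1 : ∑ u, m u * f u ≤ 1) (h2 : 1 ≤ vol m univ * ip m f f / 4) :
    l * Real.log (vol m univ * ip m f f / 4) * ip m f f / 2 ≤ en c f := by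
  set μ : ℝ := ∑ u, m u * f u with hμ
  have e1 : ip m (fun u => f u / μ) (fun u => f u / μ) = ip m f f / μ ^ 2 := by
    unfold ip
    rw [sum_div]
    refine sum_congr rfl fun u _ => ?_
    field_simp
  have e2 : en c (fun u => f u / μ) = en c f / μ ^ 2 := by
    unfold en
    rw [mul_div_assoc, sum_div]
    congr 1
    refine sum_congr rfl fun u _ => ?_
    rw [sum_div]
    refine sum_congr rfl fun v _ => ?_
    field_simp
  have e3 : ∑ u, m u * (f u / μ) = 1 := by
    have : ∑ u, m u * (f u / μ) = (∑ u, m u * f u) / μ := by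
      rw [sum_div]
      exact sum_congr rfl fun u _ => by rw [mul_div_assoc]
    rw [this, ← hμ, div_self h0.ne']
  have hip : 0 ≤ ip m f f := sum_nonneg fun u _ => mul_nonneg (mul_nonneg (hm u).le (hf u)) (hf u)
  have hμ2 : μ ^ 2 ≤ 1 := pow_le_one₀ h0.le h1
  have hμ0 : 0 < μ ^ 2 := by positivity
  have hvol : 0 ≤ vol m univ := sum_nonneg fun u _ => (hm u).le
  have h3 : vol m univ * ip m f f / 4 ≤ vol m univ * (ip m f f / μ ^ 2) / 4 := by
    have : ip m f f ≤ ip m f f / μ ^ 2 := by
      rw [le_div_iff₀ hμ0]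
      exact mul_le_of_le_one_right hip hμ2
    have := mul_le_mul_of_nonneg_left this hvol
    linarith
  have h4 := T_FKL T_EP W c m (fun u => f u / μ) l hc hm hl hls (fun u => div_nonneg (hf u) h0.le)
    e3 (by rw [e1]; exact h2.trans h3)
  rw [e1, e2] at h4
  have h5 : l * Real.log (vol m univ * ip m f f / 4) * (ip m f f / μ ^ 2) / 2 ≤
      en c f / μ ^ 2 := by
    refine le_trans ?_ h4
    have h6 : Real.log (vol m univ * ip m f f / 4) ≤
        Real.log (vol m univ * (ip m f f / μ ^ 2) / 4) := Real.log_le_log (by linarith) h3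
    have h7 : 0 ≤ ip m f f / μ ^ 2 := by positivity
    have h8 := mul_le_mul_of_nonneg_right (mul_le_mul_of_nonneg_left h6 hl) h7
    linarith
  rw [le_div_iff₀ hμ0] at h5
  refine le_trans (le_of_eq ?_) h5
  field_simp

/-- decay of the killed heat kernel -/
theorem hk_decay (c : W → W → ℝ) (m mt : W → ℝ) (l s0 : ℝ) (A : Finset W)
    (hN : IsNet (fun u v => s0 * c u v) mt) (hc : ∀ u v, 0 ≤ c u v) (hm : ∀ u, 0 < m u)
    (hA : ∀ u ∈ A, mt u = m u) (hl : 0 < l) (h0 : 0 < s0) (hsl : s0 * l ≤ 1)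
    (hls : LSob c m l) (v : W) (hv : v ∈ A) (s : ℕ) :
    ip mt (hk (fun u v => s0 * c u v) mt A s v) (hk (fun u v => s0 * c u v) mt A s v)
      ≤ 4 / vol m univ * (vol m univ / m v) ^ ((1 - s0 * l / 4) ^ s : ℝ) := by
  set w : W → W → ℝ := fun u v => s0 * c u v with hw
  set f : ℕ → W → ℝ := fun s => hk w mt A s v with hf
  have hipm : ∀ s, ip mt (f s) (f s) = ip m (f s) (f s) := by
    intro s
    unfold ip
    refine sum_congr rfl fun u _ => ?_
    by_cases hu : u ∈ A
    · rw [hA u hu]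
    · have : f s u = 0 := hk_sup A s v hv u hu
      rw [this]; ring
  have hsm : ∀ s, ∑ u, mt u * f s u = ∑ u, m u * f s u := by
    intro s
    refine sum_congr rfl fun u _ => ?_
    by_cases hu : u ∈ A
    · rw [hA u hu]
    · have : f s u = 0 := hk_sup A s v hv u hu
      rw [this]; ring
  have hnn : ∀ s u, 0 ≤ f s u := fun s u => hk_nonneg hN A s v u
  have hsum : ∀ s, ∑ u, m u * f s u ≤ 1 := fun s => by
    rw [← hsm s]; exact hk_sum hN A s v
  have hpos : ∀ s, 0 < f s v := fun s => hk_pos hN A s v hv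
  have hsum0 : ∀ s, 0 < ∑ u, m u * f s u := fun s =>
    sum_pos' (fun u _ => mul_nonneg (hm u).le (hnn s u)) ⟨v, mem_univ v, mul_pos (hm v) (hpos s)⟩
  set F : ℕ → ℝ := fun s => ip mt (f s) (f s) with hF
  have hFpos : ∀ s, 0 < F s := by
    intro s
    simp only [hF, ip]
    exact sum_pos' (fun u _ => mul_nonneg (mul_nonneg (hN.pos u).le (hnn s u)) (hnn s u))
      ⟨v, mem_univ v, mul_pos (mul_pos (hN.pos v) (hpos s)) (hpos s)⟩
  have hM : 0 < vol m univ := sum_pos (fun u _ => hm u) ⟨v, mem_univ v⟩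
  have hmv : m v ≤ vol m univ :=
    single_le_sum (f := m) (fun u _ => (hm u).le) (mem_univ v)
  set M := vol m univ with hMd
  have hv' := hm v
  have hMv : 1 ≤ M / m v := by rwa [le_div_iff₀ hv', one_mul]
  have hstep : ∀ s, F (s + 1) ≤ F s - en w (f s) / 2 := by
    intro s
    simp only [hF, hf]
    rw [hk_succ]
    exact kl_sq hN A _
  have hen : ∀ g : W → ℝ, 0 ≤ en w g := by
    intro g
    unfold en
    apply mul_nonneg (by norm_num)
    exact sum_nonneg fun u _ => sum_nonneg fun u' _ => mul_nonneg (hN.nonneg _ _) (sq_nonneg _)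
  have hens : ∀ g : W → ℝ, en w g = s0 * en c g := by
    intro g
    unfold en
    simp only [hw, mul_sum]
    refine sum_congr rfl fun u _ => sum_congr rfl fun v _ => by ring
  set x : ℕ → ℝ := fun s => Real.log (M * F s / 4) with hx
  have hposF : ∀ s, 0 < M * F s / 4 := fun s => by
    have := hFpos s
    positivity
  have hx1 : ∀ s, x (s + 1) ≤ x s := by
    intro s
    apply Real.log_le_log (hposF _)
    have h1 := hstep s
    have h2 := hen (f s)
    have h3 : F (s + 1) ≤ F s := by linarith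
    have : M * F (s + 1) ≤ M * F s := mul_le_mul_of_nonneg_left h3 hM.le
    linarith
  have hx2 : ∀ s, 0 ≤ x s → x (s + 1) ≤ x s * (1 - s0 * l / 4) := by
    intro s hxs
    have h1 : 1 ≤ M * F s / 4 := by
      by_contra hcon
      push Not at hcon
      have := Real.log_neg (hposF s) hcon
      exact absurd hxs (not_le.2 this)
    have h2 := fkl' c m (f s) l hc hm hl.le hls (hnn s) (hsum0 s) (hsum s) (by
      rw [← hipm s]; exact h1)
    rw [← hipm s] at h2
    have h3 := hstep s
    rw [hens] at h3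
    have h4 : F (s + 1) ≤ F s * (1 - s0 * l / 4 * x s) := by
      have e : s0 * (l * Real.log (M * F s / 4) * F s / 2) = 2 * (F s * (s0 * l / 4 * x s)) := by
        rw [hx]; ring
      have h2' : 2 * (F s * (s0 * l / 4 * x s)) ≤ s0 * en c (f s) := by
        rw [← e]; exact mul_le_mul_of_nonneg_left h2 h0.le
      calc F (s + 1) ≤ F s - s0 * en c (f s) / 2 := h3
        _ ≤ F s - F s * (s0 * l / 4 * x s) := by linarith
        _ = _ := by ring
    have h5 : 0 < 1 - s0 * l / 4 * x s := by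
      have h6 : 0 < F s * (1 - s0 * l / 4 * x s) := lt_of_lt_of_le (hFpos _) h4
      exact (pos_iff_pos_of_mul_pos h6).1 (hFpos s)
    have h7 : M * F (s + 1) / 4 ≤ (M * F s / 4) * (1 - s0 * l / 4 * x s) := by
      have : M * F (s + 1) ≤ M * (F s * (1 - s0 * l / 4 * x s)) :=
        mul_le_mul_of_nonneg_left h4 hM.le
      calc M * F (s + 1) / 4 ≤ M * (F s * (1 - s0 * l / 4 * x s)) / 4 := by linarith
        _ = _ := by ring
    calc x (s + 1) ≤ Real.log ((M * F s / 4) * (1 - s0 * l / 4 * x s)) :=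
          Real.log_le_log (hposF _) h7
      _ = x s + Real.log (1 - s0 * l / 4 * x s) := Real.log_mul (hposF s).ne' h5.ne'
      _ ≤ x s - s0 * l / 4 * x s := by
          have := Real.log_le_sub_one_of_pos h5
          linarith
      _ = x s * (1 - s0 * l / 4) := by ring
  have hx0 : x 0 ≤ Real.log (M / m v) := by
    have h1 : F 0 = 1 / m v := by
      change ip mt (dl mt v) (dl mt v) = _
      rw [ip_dl hN.pos v (dl mt v)]
      unfold dl
      rw [if_pos rfl, hA v hv]
    apply Real.log_le_log (hposF 0)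
    rw [h1]
    have h2 : 0 < M / m v := by positivity
    have h3 : M * (1 / m v) / 4 = M / m v / 4 := by ring
    rw [h3]
    linarith
  have hsl0 : 0 < s0 * l := mul_pos h0 hl
  have hfin : x s ≤ Real.log (M / m v) * (1 - s0 * l / 4) ^ s :=
    HDL.rec_bound x (1 - s0 * l / 4) _ (by linarith) (Real.log_nonneg hMv) hx0 hx1 hx2 s
  have h1 : M * F s / 4 ≤ (M / m v) ^ ((1 - s0 * l / 4) ^ s : ℝ) := by
    rw [Real.rpow_def_of_pos (by positivity), ← Real.exp_log (hposF s)]
    exact Real.exp_le_exp.2 hfin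
  change F s ≤ _
  rw [div_mul_eq_mul_div, le_div_iff₀ hM]
  linarith

end

end Run7.h881.SA
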