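import Pool.Agent.Run7.h881.SA.Sherali
import Pool.Agent.TH522.UG.Main

/-!
The rounding theorem for the Sherali-Adams hierarchy.
-/

set_option autoImplicit false
set_option linter.unusedSectionVars false

namespace Run7.h881.SA

open Finset Pool.Agent.H647R3.UG Pool.Agent.H573R3.SL
open Pool.Agent.TH522.UG (Ach ach_leaf ach_cut phi phi_nonneg phi_le_one vr_lt phi_lip G G_nonneg
  G_rec volL_nonneg triv_le softpart split_cost ach_split)

namespace Main

/-- the number of conditioning steps of a stage -/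
theorem steps (n : ℕ) (hn : 1 ≤ n) (q : ℝ) (hq : 0 < q) (hq1 : q ≤ 1) (k : ℕ)
    (hk : 1099511627776 * (n : ℝ) ^ (2 * q) ≤ k) :
    2 ≤ k * (1 / 274877906944 * (Real.exp (-(q * Real.log (n + 1))) * (n : ℝ) ^ (-q))) := by
  have hn0 : (0 : ℝ) < n := by exact_mod_cast hn
  have hn1 : (1 : ℝ) ≤ n := by exact_mod_cast hn
  have h1 : 1 / 2 * (n : ℝ) ^ (-q) ≤ Real.exp (-(q * Real.log (n + 1))) := by
    have h2 : Real.exp (-(q * Real.log (n + 1))) = ((n : ℝ) + 1) ^ (-q) := by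
      rw [Real.rpow_def_of_pos (by linarith)]
      congr 1
      ring
    rw [h2]
    have h3 : (2 * (n : ℝ)) ^ (-q) ≤ ((n : ℝ) + 1) ^ (-q) :=
      Real.rpow_le_rpow_of_nonpos (by linarith) (by linarith) (by linarith)
    refine le_trans ?_ h3
    rw [Real.mul_rpow (by norm_num) hn0.le]
    refine mul_le_mul_of_nonneg_right ?_ (Real.rpow_nonneg hn0.le _)
    have h4 : (2 : ℝ) ^ (-1 : ℝ) ≤ 2 ^ (-q) :=
      Real.rpow_le_rpow_of_exponent_le (by norm_num) (by linarith)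
    rw [Real.rpow_neg_one] at h4
    linarith
  have h5 : 0 < (n : ℝ) ^ (-q) := Real.rpow_pos_of_pos hn0 _
  have h6 : (n : ℝ) ^ (2 * q) * ((n : ℝ) ^ (-q) * (n : ℝ) ^ (-q)) = 1 := by
    rw [← Real.rpow_add hn0, ← Real.rpow_add hn0, show 2 * q + (-q + -q) = 0 by ring,
      Real.rpow_zero]
  calc (2 : ℝ) = 1099511627776 * (n : ℝ) ^ (2 * q) *
        (1 / 274877906944 * (1 / 2 * (n : ℝ) ^ (-q) * (n : ℝ) ^ (-q))) := by
        have : 1099511627776 * (n : ℝ) ^ (2 * q) *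
          (1 / 274877906944 * (1 / 2 * (n : ℝ) ^ (-q) * (n : ℝ) ^ (-q))) =
          2 * ((n : ℝ) ^ (2 * q) * ((n : ℝ) ^ (-q) * (n : ℝ) ^ (-q))) := by ring
        rw [this, h6]; norm_num
    _ ≤ k * (1 / 274877906944 * (Real.exp (-(q * Real.log (n + 1))) * (n : ℝ) ^ (-q))) := by
        refine mul_le_mul hk ?_ (by positivity) (Nat.cast_nonneg k)
        refine mul_le_mul_of_nonneg_left ?_ (by norm_num)
        exact mul_le_mul_of_nonneg_right h1 h5.le

/-- the number of samples -/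
theorem samples (n : ℕ) (hn : 1 ≤ n) (r ε : ℝ) (hr : 0 < r) (hr1 : r ≤ 1) (hε : 0 < ε)
    (hε1 : ε ≤ 1) :
    512 * (2 + 2 * Real.log (1 / (r / 2)) + Real.log (n + 1) / (ε / 2) ^ 2) ^ 2 *
      Real.exp (r / 2 * Real.log (n + 1) / 2) ≤
      16777216 * ((n : ℝ) ^ (r / 2) / (r ^ 2 * ε ^ 4)) := by
  have hn0 : (0 : ℝ) < n := by exact_mod_cast hn
  have hn1 : (1 : ℝ) ≤ n := by exact_mod_cast hn
  set w : ℝ := (n : ℝ) ^ (r / 8) with hw
  have hw1 : 1 ≤ w := Real.one_le_rpow hn1 (by positivity)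
  have hw0 : 0 < w := by linarith
  have hw4 : (n : ℝ) ^ (r / 2) = w ^ 4 := by
    rw [hw, ← Real.rpow_natCast, ← Real.rpow_mul hn0.le]
    congr 1
    push_cast
    ring
  have h1 : Real.log (1 / (r / 2)) ≤ 2 / r := by
    rw [one_div_div]
    exact Real.log_le_self (by positivity)
  have h1' : 0 ≤ Real.log (1 / (r / 2)) := by
    rw [one_div_div]
    exact Real.log_nonneg (by rw [le_div_iff₀ hr]; linarith)
  have h2 : ((n : ℝ) + 1) ^ (r / 8) ≤ 2 * w := by
    calc ((n : ℝ) + 1) ^ (r / 8) ≤ (2 * n) ^ (r / 8) :=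
          Real.rpow_le_rpow (by linarith) (by linarith) (by positivity)
      _ = 2 ^ (r / 8) * w := by rw [Real.mul_rpow (by norm_num) hn0.le]
      _ ≤ 2 * w := by
          refine mul_le_mul_of_nonneg_right ?_ hw0.le
          calc (2 : ℝ) ^ (r / 8) ≤ 2 ^ (1 : ℝ) :=
                Real.rpow_le_rpow_of_exponent_le (by norm_num) (by linarith)
            _ = 2 := Real.rpow_one 2
  have h3 : Real.log ((n : ℝ) + 1) ≤ 16 / r * w := by
    have h := Real.log_le_rpow_div (x := (n : ℝ) + 1) (by linarith) (ε := r / 8) (by positivity)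
    refine h.trans ?_
    calc ((n : ℝ) + 1) ^ (r / 8) / (r / 8) ≤ 2 * w / (r / 8) :=
          div_le_div_of_nonneg_right h2 (by positivity)
      _ = 16 / r * w := by field_simp; ring
  have h3' : 0 ≤ Real.log ((n : ℝ) + 1) := Real.log_nonneg (by linarith)
  have h4 : Real.exp (r / 2 * Real.log (n + 1) / 2) ≤ 4 * w ^ 2 := by
    have h5 : Real.exp (r / 2 * Real.log (n + 1) / 2) = (((n : ℝ) + 1) ^ (r / 8)) ^ 2 := by
      rw [Real.rpow_def_of_pos (by linarith), ← Real.exp_nat_mul]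
      congr 1
      push_cast
      ring
    rw [h5]
    calc (((n : ℝ) + 1) ^ (r / 8)) ^ 2 ≤ (2 * w) ^ 2 :=
          pow_le_pow_left₀ (Real.rpow_nonneg (by linarith) _) h2 2
      _ = 4 * w ^ 2 := by ring
  have hrε : 0 < r * ε ^ 2 := by positivity
  have hε2 : ε ^ 2 ≤ 1 := pow_le_one₀ hε.le hε1
  have hrε1 : r * ε ^ 2 ≤ 1 := by
    calc r * ε ^ 2 ≤ 1 * 1 := mul_le_mul hr1 hε2 (by positivity) (by norm_num)
      _ = 1 := by norm_num
  have h5 : 2 + 2 * Real.log (1 / (r / 2)) + Real.log (n + 1) / (ε / 2) ^ 2 ≤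
      70 * (w / (r * ε ^ 2)) := by
    have a1 : 2 ≤ 2 * (w / (r * ε ^ 2)) := by
      have : 1 ≤ w / (r * ε ^ 2) := by rw [le_div_iff₀ hrε]; linarith
      linarith
    have a2 : 2 * Real.log (1 / (r / 2)) ≤ 4 * (w / (r * ε ^ 2)) := by
      have : 1 / r ≤ w / (r * ε ^ 2) := by
        rw [div_le_div_iff₀ hr hrε]
        have : ε ^ 2 ≤ w := hε2.trans hw1
        nlinarith
      have h : 2 / r = 2 * (1 / r) := by ring
      rw [h] at h1
      linarith
    have a3 : Real.log (n + 1) / (ε / 2) ^ 2 ≤ 64 * (w / (r * ε ^ 2)) := by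
      calc Real.log (n + 1) / (ε / 2) ^ 2 ≤ (16 / r * w) / (ε / 2) ^ 2 :=
            div_le_div_of_nonneg_right h3 (by positivity)
        _ = 64 * (w / (r * ε ^ 2)) := by field_simp; ring
    linarith
  calc 512 * (2 + 2 * Real.log (1 / (r / 2)) + Real.log (n + 1) / (ε / 2) ^ 2) ^ 2 *
      Real.exp (r / 2 * Real.log (n + 1) / 2)
      ≤ 512 * (70 * (w / (r * ε ^ 2))) ^ 2 * (4 * w ^ 2) := by
        refine mul_le_mul ?_ h4 (Real.exp_pos _).le (by positivity)
        exact mul_le_mul_of_nonneg_left (pow_le_pow_left₀ (by positivity) h5 2) (by norm_num)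
    _ = 10035200 * (w ^ 4 / (r ^ 2 * ε ^ 4)) := by
        field_simp
        ring
    _ ≤ 16777216 * ((n : ℝ) ^ (r / 2) / (r ^ 2 * ε ^ 4)) := by
        rw [hw4]
        exact mul_le_mul_of_nonneg_right (by norm_num) (by positivity)

/-- the total loss -/
theorem loss (r γ ε m : ℝ) (T : ℕ) (hr : 0 < r) (hr1 : r ≤ 1) (hγ : 0 < γ)
    (hε : 0 < ε) (hm : 0 < m) (hεγ : 4294967296 * (ε * Real.log (2 / r)) ≤ r * γ ^ 2)
    (hT1 : 8 / γ ≤ (16 : ℝ) ^ T) (hT2 : (16 : ℝ) ^ T ≤ 128 / γ) :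
    2 * G (786432 * (Real.log (2 / (r / 2)) / (r / 2))) T (ε * m) (2 * m) ≤ γ * m := by
  have hl2 := Real.log_two_gt_d9
  have hΛ2 : Real.log 2 ≤ Real.log (2 / r) :=
    Real.log_le_log (by norm_num) (by rw [le_div_iff₀ hr]; linarith)
  have hΛ : 0 < Real.log (2 / r) := by linarith
  have h1 : Real.log (2 / (r / 2)) ≤ 2 * Real.log (2 / r) := by
    have : 2 / (r / 2) = 2 * (2 / r) := by field_simp
    rw [this, Real.log_mul (by norm_num) (by positivity)]
    linarith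
  have h1' : 0 ≤ Real.log (2 / (r / 2)) := Real.log_nonneg (by
    rw [le_div_iff₀ (by positivity)]; linarith)
  -- the square root term
  have h2 : 2 * Real.sqrt (786432 * (Real.log (2 / (r / 2)) / (r / 2)) * (ε * m * (2 * m))) ≤
      γ * m / 8 := by
    have h3 : 786432 * (Real.log (2 / (r / 2)) / (r / 2)) * (ε * m * (2 * m)) ≤
        (γ * m / 16) ^ 2 := by
      have h4 : Real.log (2 / (r / 2)) / (r / 2) * ε ≤ γ ^ 2 / 1073741824 := by
        rw [div_mul_eq_mul_div, div_le_iff₀ (by positivity)]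
        have h5 : Real.log (2 / (r / 2)) * ε ≤ 2 * Real.log (2 / r) * ε :=
          mul_le_mul_of_nonneg_right h1 hε.le
        nlinarith
      calc 786432 * (Real.log (2 / (r / 2)) / (r / 2)) * (ε * m * (2 * m))
          = 1572864 * m ^ 2 * (Real.log (2 / (r / 2)) / (r / 2) * ε) := by ring
        _ ≤ 1572864 * m ^ 2 * (γ ^ 2 / 1073741824) := mul_le_mul_of_nonneg_left h4 (by positivity)
        _ ≤ (γ * m / 16) ^ 2 := by
            have : 0 ≤ m ^ 2 * γ ^ 2 := by positivity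
            nlinarith
    have h6 := Real.sqrt_le_sqrt h3
    rw [Real.sqrt_sq (by positivity)] at h6
    linarith
  -- the middle term
  have h7 : ε ≤ γ ^ 2 / 1073741824 := by
    have h8 : ε * (1 / 2) ≤ ε * Real.log (2 / r) :=
      mul_le_mul_of_nonneg_left (by linarith) hε.le
    have h9 : r * γ ^ 2 ≤ γ ^ 2 := mul_le_of_le_one_left (sq_nonneg _) hr1
    have : 0 ≤ ε := hε.le
    linarith
  have h10 : (4 : ℝ) ^ T ≤ 128 / γ :=
    (pow_le_pow_left₀ (by norm_num) (by norm_num) T).trans hT2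
  have h11 : 24 * ((4 : ℝ) ^ T - 1) * (ε * m) ≤ γ * m / 8 := by
    have h12 : (4 : ℝ) ^ T * ε ≤ γ / 192 := by
      calc (4 : ℝ) ^ T * ε ≤ 128 / γ * (γ ^ 2 / 1073741824) :=
            mul_le_mul h10 h7 hε.le (by positivity)
        _ ≤ γ / 192 := by
            have : 128 / γ * (γ ^ 2 / 1073741824) = γ * (128 / 1073741824) := by field_simp
            rw [this]
            nlinarith
    have h13 : 24 * ((4 : ℝ) ^ T - 1) * (ε * m) ≤ 24 * m * ((4 : ℝ) ^ T * ε) := by
      have : 0 ≤ ε * m := by positivity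
      nlinarith
    have h14 : 24 * m * ((4 : ℝ) ^ T * ε) ≤ 24 * m * (γ / 192) :=
      mul_le_mul_of_nonneg_left h12 (by positivity)
    linarith
  -- the last term
  have h15 : 1 / 2 * (1 / 16 : ℝ) ^ T * (2 * m) ≤ γ * m / 8 := by
    have h16 : (1 / 16 : ℝ) ^ T ≤ γ / 8 := by
      rw [one_div, inv_pow, inv_le_comm₀ (by positivity) (by positivity)]
      rw [inv_div]
      exact hT1
    have := mul_le_mul_of_nonneg_right h16 hm.le
    linarith
  unfold G
  have : 0 < γ * m := by positivity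
  linarith

end Main

/-- iterated monotonicity -/
theorem HierS.mono'' {V A : Type} [Fintype V] [DecidableEq V] [Fintype A] [DecidableEq A]
    {M : ℕ} {Q : ℕ → (((V → A) → ℝ) →ₗ[ℝ] ℝ) → Prop} (hQ : HierS M Q)
    (L : ((V → A) → ℝ) →ₗ[ℝ] ℝ) (k : ℕ) : ∀ j, Q (k + j) L → Q k L
  | 0, h => h
  | j + 1, h => hQ.mono'' L k j (hQ.mono _ _ (by rwa [← add_assoc] at h))

/-- the rounding theorem for the Sherali-Adams hierarchy -/
theorem core {V A E : Type} [Fintype V] [DecidableEq V] [Fintype A] [DecidableEq A] [Fintype E]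
    (s t : E → V) (π : E → Equiv.Perm A) (r γ ε : ℝ) (hr : 0 < r) (hr1 : r ≤ 1) (hγ : 0 < γ)
    (hγ1 : γ < 1) (hε : 0 < ε) (hεγ : 4294967296 * (ε * Real.log (2 / r)) ≤ r * γ ^ 2) (K : ℕ)
    (hK : 4398046511104 * (Real.log (2 / γ) * (Fintype.card V : ℝ) ^ r +
      (Fintype.card V : ℝ) ^ (r / 2) / (r ^ 2 * ε ^ 4)) ≤ K)
    (L : ((V → A) → ℝ) →ₗ[ℝ] ℝ) (hL : SA K L)
    (hval : (1 - ε) * (Fintype.card E : ℝ) ≤ ∑ e, L (sat (s e) (t e) (π e))) :
    ∃ x : V → A, (1 - γ) * (Fintype.card E : ℝ)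
      ≤ ((univ.filter fun e => π e (x (s e)) = x (t e)).card : ℝ) := by
  -- the number of samples
  have hε1 : ε ≤ 1 := by
    have hl2 := Real.log_two_gt_d9
    have hΛ2 : Real.log 2 ≤ Real.log (2 / r) :=
      Real.log_le_log (by norm_num) (by rw [le_div_iff₀ hr]; linarith)
    have h8 : ε * (1 / 2) ≤ ε * Real.log (2 / r) :=
      mul_le_mul_of_nonneg_left (by linarith) hε.le
    have h9 : r * γ ^ 2 ≤ γ ^ 2 := mul_le_of_le_one_left (sq_nonneg _) hr1
    have h10 : γ ^ 2 ≤ 1 := pow_le_one₀ hγ.le hγ1.le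
    linarith
  rcases isEmpty_or_nonempty E with hE | ⟨⟨e0⟩⟩
  · obtain ⟨x0⟩ : Nonempty (V → A) := by
      by_contra hcon
      rw [not_nonempty_iff] at hcon
      have h1 := hL.one
      have h2 : (fun _ : V → A => (1 : ℝ)) = 0 := by
        funext x
        exact (hcon.false x).elim
      rw [h2, map_zero] at h1
      exact zero_ne_one h1
    exact ⟨x0, by simp⟩
  have hn : 1 ≤ Fintype.card V := Fintype.card_pos_iff.2 ⟨s e0⟩
  have hn0 : (0 : ℝ) < (Fintype.card V : ℝ) := by exact_mod_cast hn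
  have hn1 : (1 : ℝ) ≤ (Fintype.card V : ℝ) := by exact_mod_cast hn
  obtain ⟨x0⟩ : Nonempty (V → A) := by
    by_contra hcon
    rw [not_nonempty_iff] at hcon
    have h1 := hL.one
    have h2 : (fun _ : V → A => (1 : ℝ)) = 0 := by
      funext x
      exact (hcon.false x).elim
    rw [h2, map_zero] at h1
    exact zero_ne_one h1
  set m : ℝ := (Fintype.card E : ℝ) with hm
  have hm0 : 0 < m := by
    rw [hm]
    exact_mod_cast Fintype.card_pos_iff.2 ⟨e0⟩
  have hsam := Main.samples (Fintype.card V) hn r ε hr hr1 hε hε1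
  set X : ℝ := 512 * (2 + 2 * Real.log (1 / (r / 2)) +
    Real.log ((Fintype.card V : ℝ) + 1) / (ε / 2) ^ 2) ^ 2 *
      Real.exp (r / 2 * Real.log ((Fintype.card V : ℝ) + 1) / 2) with hX
  have hX0 : 0 ≤ X := by rw [hX]; positivity
  obtain ⟨M, hMX, hM2, hMle⟩ : ∃ M : ℕ, X ≤ (M : ℝ) - 1 ∧ 2 ≤ M ∧ (M : ℝ) ≤ X + 3 := by
    refine ⟨⌈X⌉₊ + 2, ?_, by omega, ?_⟩
    · push_cast
      have := Nat.le_ceil X
      linarith
    · push_cast
      have := Nat.ceil_lt_add_one hX0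
      linarith
  have hQ := hier_sa V A M
  obtain ⟨T, hT1, hT2, hT3⟩ := Pool.Agent.TH522.UG.Main.exists_stages γ hγ hγ1
  set k : ℕ := ⌈1099511627776 * (Fintype.card V : ℝ) ^ (2 * (r / 2))⌉₊ with hk
  have hk1 : 1099511627776 * (Fintype.card V : ℝ) ^ (2 * (r / 2)) ≤ k := Nat.le_ceil _
  have hk2 : (k : ℝ) < 1099511627776 * (Fintype.card V : ℝ) ^ (2 * (r / 2)) + 1 :=
    Nat.ceil_lt_add_one (by positivity)
  have e1 : 2 * (r / 2) = r := by ring
  rw [e1] at hk2
  have hnr : 1 ≤ (Fintype.card V : ℝ) ^ r := Real.one_le_rpow hn1 hr.le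
  have hnr2 : 1 ≤ (Fintype.card V : ℝ) ^ (r / 2) := Real.one_le_rpow hn1 (by positivity)
  have hlevel : T * k + (M + 2) ≤ K := by
    have h1 : ((T * k + (M + 2) : ℕ) : ℝ) ≤ K := by
      push_cast
      refine le_trans ?_ hK
      have h2 : 0 ≤ Real.log (2 / γ) * (Fintype.card V : ℝ) ^ r :=
        mul_nonneg (Real.log_nonneg (by rw [le_div_iff₀ hγ]; linarith)) (by linarith)
      have h3 : (T : ℝ) * k ≤ 4398046511104 * (Real.log (2 / γ) * (Fintype.card V : ℝ) ^ r) := by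
        calc (T : ℝ) * k ≤ 3 * Real.log (2 / γ) * (1099511627777 * (Fintype.card V : ℝ) ^ r) := by
              refine mul_le_mul hT3 (by linarith) (Nat.cast_nonneg k) ?_
              exact (Nat.cast_nonneg T).trans hT3
          _ ≤ 4398046511104 * (Real.log (2 / γ) * (Fintype.card V : ℝ) ^ r) := by nlinarith
      have h4 : (1 : ℝ) ≤ (Fintype.card V : ℝ) ^ (r / 2) / (r ^ 2 * ε ^ 4) := by
        rw [le_div_iff₀ (by positivity), one_mul]
        have h5 : r ^ 2 ≤ 1 := pow_le_one₀ hr.le hr1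
        have h6 : ε ^ 4 ≤ 1 := pow_le_one₀ hε.le hε1
        calc r ^ 2 * ε ^ 4 ≤ 1 * 1 := mul_le_mul h5 h6 (by positivity) (by norm_num)
          _ ≤ _ := by linarith
      linarith
    exact_mod_cast h1
  have hL2 : SA (T * k + (M + 2)) L := by
    refine ⟨hL.one, fun S hS => hL.nonneg S (hS.trans hlevel)⟩
  have hN : 0 < Real.log ((Fintype.card V : ℝ) + 1) := Real.log_pos (by linarith)
  have hN1 : Real.log (Fintype.card V : ℝ) ≤ Real.log ((Fintype.card V : ℝ) + 1) :=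
    Real.log_le_log hn0 (by linarith)
  have hsteps := Main.steps (Fintype.card V) hn (r / 2) (by positivity) (by linarith) k hk1
  have hErr : ErrL s t π (fun _ => (1 : ℝ)) L ≤ ε * m := by
    unfold ErrL
    simp only [one_mul]
    rw [sum_sub_distrib]
    have h1 : ∑ _e : E, (1 : ℝ) = m := by rw [hm]; simp
    rw [h1]
    linarith
  have hvol : volL s t (fun _ => (1 : ℝ)) = 2 * m := by
    unfold volL
    simp only [one_pow, mul_one]
    exact (T_WT V E s t).2.2.2.2.1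
  have h := node hQ s t π x0 (r / 2) _ (ε / 2) (by positivity) (by linarith) hN hN1
    (by positivity) hM2 hMX k hsteps T
    (fun _ => 1) L (ε * m) (fun _ => zero_le_one) (by positivity) (by rw [hvol]; linarith) hL2 hErr
  rw [hvol] at h
  obtain ⟨c, hc⟩ := Pool.Agent.TH522.UG.ach_round _ (h.congr (P' := fun _ => 1) fun v => by norm_num)
  have hloss := Main.loss r γ ε m T hr hr1 hγ hε hm0 hεγ hT1 hT2
  exact ⟨c, by linarith⟩

end Run7.h881.SA
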